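import Mathlib
import Pool.Agent.H58B.Low

set_option autoImplicit false

/-!
# Valuations of the elements of a cyclotomic field above an unramified prime
-/

namespace Pool.Agent.Q281.USB

open NumberField IsDedekindDomain
open Pool.Agent.H58P (Qb)

instance instAlgQb : Algebra.IsAlgebraic ℚ Qb := AlgebraicClosure.isAlgebraic ℚ

instance instClosureQb : IsAlgClosure ℚ Qb := ⟨inferInstance, inferInstance⟩

instance instNormalQb : Normal ℚ Qb := IsAlgClosure.normal ℚ Qb

instance instGaloisQb : IsGalois ℚ Qb := ⟨⟩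

lemma mem_of_isIntegral (V : ValuationSubring Qb) {x : Qb} (hx : IsIntegral ℤ x) : x ∈ V := by
  have h1 : IsIntegral V x := hx.tower_top
  obtain ⟨y, hy⟩ := IsIntegrallyClosed.isIntegral_iff.mp h1
  rw [← hy]
  exact y.2

lemma val_le_one_of_isIntegral (V : ValuationSubring Qb) {x : Qb} (hx : IsIntegral ℤ x) :
    V.valuation x ≤ 1 := by
  rw [ValuationSubring.valuation_le_one_iff]
  exact mem_of_isIntegral V hx

section

variable (V : ValuationSubring Qb) (L : IntermediateField ℚ Qb) [NumberField L]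

/-- the inclusion of the integers of `L` in `V` -/
noncomputable def toV : 𝓞 L →+* V where
  toFun x := ⟨((x : L) : Qb), mem_of_isIntegral V (by
    have := (RingOfIntegers.isIntegral_coe x)
    exact this.map (algebraMap L Qb).toIntAlgHom)⟩
  map_one' := by ext; simp
  map_mul' x y := by ext; simp
  map_zero' := by ext; simp
  map_add' x y := by ext; simp

/-- the prime of `L` below `V` -/
noncomputable def primeOf : Ideal (𝓞 L) := (IsLocalRing.maximalIdeal V).comap (toV V L)

instance : (primeOf V L).IsPrime := by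
  unfold primeOf
  infer_instance

lemma mem_primeOf (x : 𝓞 L) : x ∈ primeOf V L ↔ V.valuation ((x : L) : Qb) < 1 := by
  unfold primeOf
  rw [Ideal.mem_comap]
  exact (ValuationSubring.valuation_lt_one_iff V (toV V L x))


lemma mem_primeOf_natCast (q : ℕ) : (q : 𝓞 L) ∈ primeOf V L ↔ V.valuation (q : Qb) < 1 := by
  rw [mem_primeOf]
  simp

/-- a natural number prime to `q` is a unit at `V` if `V` is above `q` -/
lemma val_natCast_eq_one {q : ℕ} (hV : V.valuation (q : Qb) < 1) {m : ℕ}
    (hm : q.Coprime m) : V.valuation (m : Qb) = 1 := by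
  apply le_antisymm
  · exact val_le_one_of_isIntegral V (isIntegral_natCast m)
  · by_contra hcon
    push Not at hcon
    have h1 : (Int.gcd (q : ℤ) (m : ℤ) : ℤ) = q * Int.gcdA q m + m * Int.gcdB q m :=
      Int.gcd_eq_gcd_ab q m
    rw [Int.gcd_natCast_natCast, Nat.Coprime.gcd_eq_one hm] at h1
    have h2 : (1 : Qb) = (q : Qb) * ((Int.gcdA q m : ℤ) : Qb) + (m : Qb) * ((Int.gcdB q m : ℤ) : Qb) := by
      exact_mod_cast congrArg (fun z : ℤ => (z : Qb)) h1
    have h3 : V.valuation ((q : Qb) * ((Int.gcdA q m : ℤ) : Qb)) < 1 := by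
      rw [map_mul]
      exact mul_lt_one_of_lt_of_le hV (val_le_one_of_isIntegral V (isIntegral_intCast _))
    have h4 : V.valuation ((m : Qb) * ((Int.gcdB q m : ℤ) : Qb)) < 1 := by
      rw [map_mul]
      exact mul_lt_one_of_lt_of_le hcon (val_le_one_of_isIntegral V (isIntegral_intCast _))
    have h5 := Valuation.map_add_lt V.valuation h3 h4
    rw [← h2, map_one] at h5
    exact lt_irrefl _ h5

lemma primeOf_liesOver {q : ℕ} (hq : q.Prime) (hV : V.valuation (q : Qb) < 1) :
    (primeOf V L).LiesOver (Ideal.span {(q : ℤ)}) := by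
  rw [Ideal.liesOver_iff]
  have hmax : (Ideal.span {(q : ℤ)}).IsMaximal :=
    PrincipalIdealRing.isMaximal_of_irreducible (Nat.prime_iff_prime_int.mp hq).irreducible
  have hne : (primeOf V L).under ℤ ≠ ⊤ := by
    have : ((primeOf V L).under ℤ).IsPrime := inferInstance
    exact this.ne_top
  refine hmax.eq_of_le hne ?_
  rw [Ideal.span_singleton_le_iff_mem, Ideal.mem_comap]
  have h1 : algebraMap ℤ (𝓞 L) (q : ℤ) = (q : 𝓞 L) := by simp
  rw [h1, mem_primeOf_natCast]
  exact hV

/-- If all primes of `L` above `q` are unramified, then the values of the elements of `L` at a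
valuation ring above `q` are powers of the value of `q`. -/
theorem exists_zpow {q : ℕ} (hq : q.Prime) (hV : V.valuation (q : Qb) < 1)
    (hun : ∀ (P : Ideal (𝓞 L)) [P.IsPrime] [P.LiesOver (Ideal.span {(q : ℤ)})],
      P.ramificationIdx ℤ = 1) (x : L) (hx : x ≠ 0) :
    ∃ k : ℤ, V.valuation (x : Qb) = V.valuation (q : Qb) ^ k := by
  have hq0 : (q : ℤ) ≠ 0 := by exact_mod_cast hq.ne_zero
  have hlies := primeOf_liesOver V L hq hV
  set P := primeOf V L with hP
  have hP0 : P ≠ ⊥ := by
    intro h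
    have h1 : (q : 𝓞 L) ∈ P := (mem_primeOf_natCast V L q).mpr hV
    rw [h, Ideal.mem_bot] at h1
    exact hq.ne_zero (by exact_mod_cast h1)
  let v : HeightOneSpectrum (𝓞 L) := ⟨P, inferInstance, hP0⟩
  have hspan0 : (Ideal.span {(q : ℤ)} : Ideal ℤ) ≠ ⊥ := by
    rw [Ne, Ideal.span_singleton_eq_bot]
    exact hq0
  have hqP : (q : 𝓞 L) ∉ P ^ 2 := by
    have h1 := hun P
    rw [← Ideal.ramificationIdx'_eq_ramificationIdx (Ideal.span {(q : ℤ)}) P hspan0] at h1
    have h2 : (Ideal.span {(q : ℤ)}).map (algebraMap ℤ (𝓞 L)) ≤ P := by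
      rw [Ideal.map_span, Set.image_singleton, Ideal.span_singleton_le_iff_mem]
      have h1 : algebraMap ℤ (𝓞 L) (q : ℤ) = (q : 𝓞 L) := by simp
      rw [h1]
      exact (mem_primeOf_natCast V L q).mpr hV
    have h3 := (Ideal.ramificationIdx'_ne_one_iff h2).not
    rw [not_not] at h3
    have h4 := h3.mp h1
    intro h5
    apply h4
    rw [Ideal.map_span, Set.image_singleton, Ideal.span_singleton_le_iff_mem]
    have h1 : algebraMap ℤ (𝓞 L) (q : ℤ) = (q : 𝓞 L) := by simp
    rw [h1]
    exact h5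
  -- the value of `q` at `v`
  have hvq : v.intValuation (q : 𝓞 L) = WithZero.exp (-1 : ℤ) := by
    have hq00 : (q : 𝓞 L) ≠ 0 := by exact_mod_cast hq.ne_zero
    have hne := v.intValuation_ne_zero (q : 𝓞 L) hq00
    have h1 : v.intValuation (q : 𝓞 L) ≤ WithZero.exp (-((1 : ℕ) : ℤ)) := by
      rw [v.intValuation_le_pow_iff_mem, pow_one]
      exact (mem_primeOf_natCast V L q).mpr hV
    have h2 : ¬ v.intValuation (q : 𝓞 L) ≤ WithZero.exp (-((2 : ℕ) : ℤ)) := by
      rw [v.intValuation_le_pow_iff_mem]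
      exact hqP
    rw [← WithZero.exp_log hne] at h1 h2 ⊢
    rw [WithZero.exp_le_exp] at h1 h2
    congr 1
    push_cast at h1 h2
    omega
  -- elements of value at most one are in `V`
  have hle : ∀ y : L, v.valuation L y ≤ 1 → V.valuation (y : Qb) ≤ 1 := by
    intro y hy
    obtain ⟨n, d, hnd⟩ := v.exists_primeCompl_mul_eq_of_integer y hy
    have h1 : V.valuation ((((d : 𝓞 L) : L)) : Qb) = 1 := by
      apply le_antisymm
      · exact val_le_one_of_isIntegral V
          ((RingOfIntegers.isIntegral_coe (d : 𝓞 L)).map (algebraMap L Qb).toIntAlgHom)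
      · by_contra hcon
        push Not at hcon
        exact d.2 ((mem_primeOf V L d).mpr hcon)
    have h2 : V.valuation (((n : L)) : Qb) ≤ 1 :=
      val_le_one_of_isIntegral V
        ((RingOfIntegers.isIntegral_coe n).map (algebraMap L Qb).toIntAlgHom)
    have h3 : V.valuation (((y * (algebraMap (𝓞 L) L d) : L)) : Qb) = V.valuation (y : Qb) := by
      have : (((y * (algebraMap (𝓞 L) L d) : L)) : Qb) = (y : Qb) * ((((d : 𝓞 L) : L)) : Qb) := rfl
      rw [this, map_mul, h1, mul_one]
    rw [← h3, hnd]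
    exact h2
  have hne : v.valuation L x ≠ 0 := (Valuation.ne_zero_iff _).mpr hx
  set k : ℤ := -WithZero.log (v.valuation L x) with hk
  have hqL : (q : L) ≠ 0 := by exact_mod_cast hq.ne_zero
  have hvqL : v.valuation L (q : L) = WithZero.exp (-1 : ℤ) := by
    rw [← hvq, ← v.valuation_of_algebraMap (K := L)]
    simp
  have hone : v.valuation L (x * (q : L) ^ (-k)) = 1 := by
    rw [map_mul, map_zpow₀, hvqL, ← WithZero.exp_zsmul, ← WithZero.exp_log hne, ← WithZero.exp_add]
    rw [WithZero.exp_eq_one, hk]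
    simp
  refine ⟨k, ?_⟩
  have hx' : V.valuation (((x * (q : L) ^ (-k) : L)) : Qb) = 1 := by
    apply le_antisymm
    · exact hle _ hone.le
    · have h1 := hle (x * (q : L) ^ (-k))⁻¹ (by rw [map_inv₀, hone, inv_one])
      have h2 : (((x * (q : L) ^ (-k))⁻¹ : L) : Qb) = (((x * (q : L) ^ (-k) : L)) : Qb)⁻¹ := rfl
      rw [h2, map_inv₀] at h1
      have h3 : V.valuation (((x * (q : L) ^ (-k) : L)) : Qb) ≠ 0 := by
        rw [Valuation.ne_zero_iff]
        have : (x * (q : L) ^ (-k) : L) ≠ 0 := mul_ne_zero hx (zpow_ne_zero _ hqL)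
        simpa using this
      rw [inv_le_one₀ (zero_lt_iff.mpr h3)] at h1
      exact h1
  have e1 : (((x * (q : L) ^ (-k) : L)) : Qb) = (x : Qb) * (q : Qb) ^ (-k) := by
    push_cast
    rfl
  rw [e1, map_mul, map_zpow₀, zpow_neg] at hx'
  have hq0' : V.valuation (q : Qb) ^ k ≠ 0 := by
    apply zpow_ne_zero
    rw [Valuation.ne_zero_iff]
    exact_mod_cast hq.ne_zero
  exact (mul_inv_eq_one₀ hq0').mp hx'

end

end Pool.Agent.Q281.USB
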