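import Mathlib
import Pool.Agent.Q281.USB.Unr

set_option autoImplicit false

/-!
# Cyclotomic fields
-/

namespace Pool.Agent.Q281.USB

open NumberField IsDedekindDomain
open Pool.Agent.H58P (Qb qb_isIntegral)

/-- the field of the `N`-th roots of unity -/
noncomputable def EN (N : ℕ) : IntermediateField ℚ Qb := IntermediateField.adjoin ℚ {x | x ^ N = 1}

lemma exists_prim (N : ℕ) (hN : 0 < N) : ∃ ξ : Qb, IsPrimitiveRoot ξ N := by
  have : NeZero N := ⟨hN.ne'⟩
  have : NeZero (N : Qb) := ⟨by exact_mod_cast hN.ne'⟩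
  exact ⟨_, (HasEnoughRootsOfUnity.exists_primitiveRoot Qb N).choose_spec⟩

lemma EN_eq (N : ℕ) (hN : 0 < N) {ξ : Qb} (hξ : IsPrimitiveRoot ξ N) :
    EN N = IntermediateField.adjoin ℚ {ξ} := by
  have : NeZero N := ⟨hN.ne'⟩
  apply le_antisymm
  · rw [EN, IntermediateField.adjoin_le_iff]
    intro x hx
    obtain ⟨i, -, hi⟩ := hξ.eq_pow_of_pow_eq_one hx
    rw [← hi]
    exact pow_mem (IntermediateField.mem_adjoin_simple_self ℚ ξ) i
  · rw [IntermediateField.adjoin_simple_le_iff]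
    exact IntermediateField.subset_adjoin ℚ _ hξ.pow_eq_one

lemma EN_cyc (N : ℕ) (hN : 0 < N) : IsCyclotomicExtension {N} ℚ (EN N) := by
  have : NeZero N := ⟨hN.ne'⟩
  obtain ⟨ξ, hξ⟩ := exists_prim N hN
  rw [EN_eq N hN hξ]
  exact hξ.intermediateField_adjoin_isCyclotomicExtension ℚ

lemma EN_nf (N : ℕ) (hN : 0 < N) : NumberField (EN N) := by
  have : NeZero N := ⟨hN.ne'⟩
  have := EN_cyc N hN
  exact IsCyclotomicExtension.numberField {N} ℚ (EN N)

/-- the values of the elements of the field of the `N`-th roots of unity, above a prime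
not dividing `N` -/
theorem EN_zpow {N : ℕ} (hN : 0 < N) {q : ℕ} (hq : q.Prime) (hqN : ¬ q ∣ N)
    (V : ValuationSubring Qb) (hV : V.valuation (q : Qb) < 1) (x : Qb) (hx : x ∈ EN N)
    (hx0 : x ≠ 0) : ∃ k : ℤ, V.valuation x = V.valuation (q : Qb) ^ k := by
  have : NeZero N := ⟨hN.ne'⟩
  have := EN_cyc N hN
  have := EN_nf N hN
  have : Fact q.Prime := ⟨hq⟩
  refine exists_zpow V (EN N) hq hV ?_ ⟨x, hx⟩ (by
    intro h
    exact hx0 (congrArg Subtype.val h))
  intro P _ _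
  exact IsCyclotomicExtension.Rat.ramificationIdx_eq_of_not_dvd q (EN N) P hqN

/-- automorphisms with prescribed action on the roots of unity -/
theorem exists_aut {M : ℕ} (hM : 0 < M) {c : ℕ} (hc : c.Coprime M) :
    ∃ σ : Qb ≃ₐ[ℚ] Qb, ∀ x : Qb, x ^ M = 1 → σ x = x ^ c := by
  have : NeZero M := ⟨hM.ne'⟩
  obtain ⟨ξ, hξ⟩ := exists_prim M hM
  have h1 : minpoly ℚ (ξ ^ c) = minpoly ℚ ξ := by
    rw [← Polynomial.cyclotomic_eq_minpoly_rat hξ hM,
      ← Polynomial.cyclotomic_eq_minpoly_rat (hξ.pow_of_coprime c hc) hM]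
  obtain ⟨σ, hσ⟩ := IsConjRoot.exists_algEquiv (K := ℚ) (L := Qb) (x := ξ ^ c) (y := ξ) h1
  refine ⟨σ, fun x hx => ?_⟩
  obtain ⟨i, -, hi⟩ := hξ.eq_pow_of_pow_eq_one hx
  rw [← hi, map_pow, hσ, ← pow_mul, ← pow_mul, mul_comm]

/-- an automorphism which is trivial on the field of the `N`-th roots of unity, with prescribed
action on the `q`-th roots of unity -/
theorem exists_aut_coprime {N q : ℕ} (hN : 0 < N) (hq : 0 < q) (h : N.Coprime q) {c : ℕ}
    (hc : c.Coprime q) :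
    ∃ σ : Qb ≃ₐ[ℚ] Qb, (∀ x ∈ EN N, σ x = x) ∧ ∀ x : Qb, x ^ q = 1 → σ x = x ^ c := by
  obtain ⟨c', h1, h2⟩ := Nat.chineseRemainder h 1 c
  have hc' : c'.Coprime (N * q) := by
    apply Nat.Coprime.mul_right
    · rw [Nat.Coprime, h1.gcd_eq]
      simp
    · rw [Nat.Coprime, h2.gcd_eq]
      exact hc
  obtain ⟨σ, hσ⟩ := exists_aut (Nat.mul_pos hN hq) hc'
  have key : ∀ (m : ℕ) (x : Qb), x ^ m = 1 → ∀ a b : ℕ, a ≡ b [MOD m] → x ^ a = x ^ b := by
    intro m x hx a b hab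
    rcases Nat.eq_zero_or_pos m with rfl | hm
    · rw [Nat.modEq_zero_iff.mp hab]
    rw [← Nat.mod_add_div a m, ← Nat.mod_add_div b m, pow_add, pow_add, pow_mul, pow_mul, hx,
      one_pow, one_pow, hab]
  refine ⟨σ, ?_, ?_⟩
  · intro x hx
    have hle : EN N ≤ (IntermediateField.fixedField (Subgroup.zpowers σ)) := by
      rw [EN, IntermediateField.adjoin_le_iff]
      intro y hy
      have hy' : σ y = y := by
        rw [hσ y (by rw [pow_mul, hy, one_pow]), key N y hy c' 1 h1, pow_one]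
      rw [SetLike.mem_coe, IntermediateField.mem_fixedField_iff]
      intro τ hτ
      have h3 : τ ∈ MulAction.stabilizer (Qb ≃ₐ[ℚ] Qb) y := by
        have h4 : Subgroup.zpowers σ ≤ MulAction.stabilizer (Qb ≃ₐ[ℚ] Qb) y := by
          rw [Subgroup.zpowers_le]
          exact hy'
        exact h4 hτ
      exact h3
    have := hle hx
    rw [IntermediateField.mem_fixedField_iff] at this
    exact this σ (Subgroup.mem_zpowers σ)
  · intro x hx
    rw [hσ x (by rw [mul_comm, pow_mul, hx, one_pow]), key q x hx c' c h2]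

end Pool.Agent.Q281.USB
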