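import Mathlib
import Pool.Agent.Q281.USB.Cyc

set_option autoImplicit false

/-!
# Expansions in powers of `ζ - 1`, `ζ` a root of unity of prime order `q`, at a prime above `q`
-/

namespace Pool.Agent.Q281.USB

open NumberField IsDedekindDomain Polynomial
open Pool.Agent.H58P (Qb qb_isIntegral)

section sums

variable {Γ : Type*} [LinearOrderedCommGroupWithZero Γ] {K : Type*} [Field K]

/-- if the nonzero summands have distinct values then each summand is bounded by the sum -/
lemma val_le_sum (v : Valuation K Γ) (s : Finset ℕ) (f : ℕ → K)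
    (h : ∀ i ∈ s, ∀ j ∈ s, i ≠ j → f i ≠ 0 → f j ≠ 0 → v (f i) ≠ v (f j)) :
    ∀ i ∈ s, v (f i) ≤ v (∑ j ∈ s, f j) := by
  classical
  intro i hi
  obtain ⟨m, hm, hmax⟩ := s.exists_max_image (fun j => v (f j)) ⟨i, hi⟩
  have hlt : v (f m) ≠ 0 → v (∑ j ∈ s.erase m, f j) < v (f m) := by
    intro h0
    apply v.map_sum_lt h0
    intro j hj
    rw [Finset.mem_erase] at hj
    rcases eq_or_ne (f j) 0 with h1 | h1
    · rw [h1, map_zero]
      exact zero_lt_iff.mpr h0
    · exact lt_of_le_of_ne (hmax j hj.2) (h j hj.2 m hm hj.1 h1 ((v.ne_zero_iff).mp h0))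
  rcases eq_or_ne (v (f m)) 0 with h0 | h0
  · have := hmax i hi
    rw [h0] at this
    exact this.trans zero_le
  · refine (hmax i hi).trans ?_
    rw [← Finset.add_sum_erase s f hm, v.map_add_eq_of_lt_left (hlt h0)]

end sums

variable {q : ℕ} (V : ValuationSubring Qb)

lemma val_sub_one_le (ζ : Qb) (i : ℕ) (hζ : IsIntegral ℤ ζ) :
    V.valuation (ζ ^ i - 1) ≤ V.valuation (ζ - 1) := by
  have h1 : ζ ^ i - 1 = (ζ - 1) * ∑ j ∈ Finset.range i, ζ ^ j := by
    rw [mul_comm]
    exact (geom_sum_mul ζ i).symm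
  rw [h1, map_mul]
  refine mul_le_of_le_one_right' ?_
  apply val_le_one_of_isIntegral
  exact IsIntegral.sum _ fun j _ => hζ.pow j

lemma prim_int {ζ : Qb} {n : ℕ} (hζ : IsPrimitiveRoot ζ n) (hn : 0 < n) : IsIntegral ℤ ζ :=
  hζ.isIntegral hn

/-- primitive roots have the same distance to `1` -/
lemma val_prim_eq {ζ ζ' : Qb} (hq : 0 < q) (h : IsPrimitiveRoot ζ q) (h' : IsPrimitiveRoot ζ' q) :
    V.valuation (ζ - 1) = V.valuation (ζ' - 1) := by
  have : NeZero q := ⟨hq.ne'⟩
  apply le_antisymm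
  · obtain ⟨i, -, hi⟩ := h'.eq_pow_of_pow_eq_one h.pow_eq_one
    rw [← hi]
    exact val_sub_one_le V ζ' i (prim_int h' hq)
  · obtain ⟨i, -, hi⟩ := h.eq_pow_of_pow_eq_one h'.pow_eq_one
    rw [← hi]
    exact val_sub_one_le V ζ i (prim_int h hq)

lemma val_pi {ζ : Qb} (hq : q.Prime) (h : IsPrimitiveRoot ζ q) :
    V.valuation (ζ - 1) ^ (q - 1) = V.valuation (q : Qb) := by
  obtain ⟨n, rfl⟩ : ∃ n, q = n + 1 := ⟨q - 1, by have := hq.pos; omega⟩
  have h1 := h.prod_one_sub_pow_eq_order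
  have h2 := congrArg V.valuation h1
  rw [map_prod] at h2
  have h3 : ∀ k ∈ Finset.range n, V.valuation (1 - ζ ^ (k + 1)) = V.valuation (ζ - 1) := by
    intro k hk
    rw [Valuation.map_sub_swap]
    refine (val_prim_eq V hq.pos h (h.pow_of_coprime (k + 1) ?_)).symm
    rw [Nat.coprime_comm]
    apply (Nat.Prime.coprime_iff_not_dvd hq).mpr
    intro hdvd
    have := Nat.le_of_dvd (Nat.succ_pos k) hdvd
    rw [Finset.mem_range] at hk
    omega
  rw [Finset.prod_congr rfl h3, Finset.prod_const, Finset.card_range] at h2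
  rw [Nat.add_sub_cancel, h2]
  push_cast
  rfl

/-- expansion of the elements of `E(ζ)` -/
lemma exists_expansion (E : IntermediateField ℚ Qb) {ζ : Qb} (hq : q.Prime)
    (h : IsPrimitiveRoot ζ q) (x : Qb) (hx : x ∈ IntermediateField.adjoin E {ζ}) :
    ∃ a : ℕ → Qb, (∀ j, a j ∈ E) ∧ x = ∑ j ∈ Finset.range (q - 1), a j * (ζ - 1) ^ j := by
  have hint : IsIntegral E ζ := (qb_isIntegral ζ).tower_top
  have h1 : x ∈ (IntermediateField.adjoin E {ζ}).toSubalgebra := hx
  rw [IntermediateField.adjoin_simple_toSubalgebra_of_isAlgebraic hint.isAlgebraic,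
    Algebra.adjoin_singleton_eq_range_aeval] at h1
  obtain ⟨P, hP⟩ := h1
  -- the monic polynomial of degree `q - 1` with root `ζ - 1`
  set f : E[X] := (cyclotomic q E).comp (X + C 1) with hf
  have hfm : f.Monic := (cyclotomic.monic q E).comp_X_add_C 1
  have hfd : f.natDegree = q - 1 := by
    rw [hf, natDegree_comp, natDegree_cyclotomic, Nat.totient_prime hq, natDegree_X_add_C, mul_one]
  have hf0 : aeval (ζ - 1) f = 0 := by
    rw [hf, aeval_comp]
    simp only [map_add, aeval_X, map_one, sub_add_cancel]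
    rw [aeval_def, eval₂_eq_eval_map, map_cyclotomic]
    exact h.isRoot_cyclotomic hq.pos
  set R : E[X] := (P.comp (X + C 1)) %ₘ f with hR
  have hRx : aeval (ζ - 1) R = x := by
    have h2 := aeval_modByMonic_eq_self_of_root (p := P.comp (X + C 1)) hf0
    rw [hR, h2, aeval_comp]
    simp only [map_add, aeval_X, map_one, sub_add_cancel]
    exact hP
  have hq1 : 0 < q - 1 := by have := hq.two_le; omega
  have hRd : R.natDegree < q - 1 := by
    rw [← hfd]
    apply natDegree_modByMonic_lt _ hfm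
    intro h1
    rw [h1, natDegree_one] at hfd
    omega
  refine ⟨fun j => (R.coeff j : Qb), fun j => (R.coeff j).2, ?_⟩
  rw [← hRx, aeval_eq_sum_range' hRd]
  refine Finset.sum_congr rfl fun j _ => ?_
  rw [Algebra.smul_def]
  rfl

/-- the main properties of the elements of `E(ζ)` with respect to the automorphisms over `E` -/
theorem val_aut (E : IntermediateField ℚ Qb) {ζ : Qb} (hq : q.Prime)
    (h : IsPrimitiveRoot ζ q) (hV : V.valuation (q : Qb) < 1)
    (hE : ∀ x ∈ E, x ≠ 0 → ∃ k : ℤ, V.valuation x = V.valuation (q : Qb) ^ k)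
    (x : Qb) (hx : x ∈ IntermediateField.adjoin E {ζ}) (σ : Qb →ₐ[E] Qb) :
    V.valuation (σ x) = V.valuation x ∧ (V.valuation x ≤ 1 → V.valuation (σ x - x) < 1) := by
  obtain ⟨a, ha, rfl⟩ := exists_expansion E hq h x hx
  have hq1 : 0 < q - 1 := by have := hq.two_le; omega
  have hq0 : V.valuation (q : Qb) ≠ 0 := by
    rw [Valuation.ne_zero_iff]
    exact_mod_cast hq.ne_zero
  have hπ := val_pi V hq h
  have hπ0 : V.valuation (ζ - 1) ≠ 0 := by
    intro h0
    rw [h0, zero_pow hq1.ne'] at hπ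
    exact hq0 hπ.symm
  have hπ1 : V.valuation (ζ - 1) < 1 := by
    by_contra hcon
    push Not at hcon
    have := one_le_pow₀ hcon (n := q - 1)
    rw [hπ] at this
    exact absurd hV (not_lt.mpr this)
  have hσζ : IsPrimitiveRoot (σ ζ) q := h.map_of_injective (σ : Qb →+* Qb).injective
  have hσπ : V.valuation (σ ζ - 1) = V.valuation (ζ - 1) := val_prim_eq V hq.pos hσζ h
  have hσx : σ (∑ j ∈ Finset.range (q - 1), a j * (ζ - 1) ^ j) =
      ∑ j ∈ Finset.range (q - 1), a j * (σ ζ - 1) ^ j := by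
    rw [map_sum]
    refine Finset.sum_congr rfl fun j _ => ?_
    rw [map_mul, map_pow, map_sub, map_one]
    congr 1
    exact σ.commutes ⟨a j, ha j⟩
  -- distinct values
  have hexp : ∀ j, a j ≠ 0 → ∃ k : ℤ, V.valuation (a j) =
      V.valuation (ζ - 1) ^ ((q - 1 : ℕ) * k : ℤ) := by
    intro j hj
    obtain ⟨k, hk⟩ := hE (a j) (ha j) hj
    refine ⟨k, ?_⟩
    rw [hk, zpow_mul, zpow_natCast, hπ]
  have hdist : ∀ ρ : Qb, V.valuation ρ = V.valuation (ζ - 1) →
      ∀ i ∈ Finset.range (q - 1), ∀ j ∈ Finset.range (q - 1), i ≠ j → a i * ρ ^ i ≠ 0 →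
        a j * ρ ^ j ≠ 0 → V.valuation (a i * ρ ^ i) ≠ V.valuation (a j * ρ ^ j) := by
    intro ρ hρ i hi j hj hij h1 h2 heq
    obtain ⟨k, hk⟩ := hexp i (left_ne_zero_of_mul h1)
    obtain ⟨m, hm⟩ := hexp j (left_ne_zero_of_mul h2)
    rw [map_mul, map_mul, map_pow, map_pow, hρ, hk, hm, ← zpow_natCast, ← zpow_natCast,
      ← zpow_add₀ hπ0, ← zpow_add₀ hπ0] at heq
    have h3 := (zpow_right_strictAnti₀ (zero_lt_iff.mpr hπ0) hπ1).injective heq
    rw [Finset.mem_range] at hi hj
    have h4 : ((q - 1 : ℕ) : ℤ) * (k - m) = (j : ℤ) - i := by linarith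
    have h5 : k - m = 0 := by
      by_contra h6
      have h7 : 1 ≤ |k - m| := Int.one_le_abs h6
      have h8 : ((q - 1 : ℕ) : ℤ) ≤ |((q - 1 : ℕ) : ℤ) * (k - m)| := by
        rw [abs_mul, Nat.abs_cast]
        nlinarith
      rw [h4] at h8
      have h9 : |(j : ℤ) - i| < ((q - 1 : ℕ) : ℤ) := by
        rw [abs_lt]
        constructor <;> omega
      omega
    rw [h5, mul_zero] at h4
    omega
  have hb1 := val_le_sum V.valuation (Finset.range (q - 1)) (fun j => a j * (ζ - 1) ^ j)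
    (hdist (ζ - 1) rfl)
  have hb2 := val_le_sum V.valuation (Finset.range (q - 1)) (fun j => a j * (σ ζ - 1) ^ j)
    (hdist (σ ζ - 1) hσπ)
  have hsame : ∀ j, V.valuation (a j * (σ ζ - 1) ^ j) = V.valuation (a j * (ζ - 1) ^ j) := by
    intro j
    rw [map_mul, map_mul, map_pow, map_pow, hσπ]
  constructor
  · rw [hσx]
    apply le_antisymm
    · apply V.valuation.map_sum_le
      intro j hj
      rw [hsame]
      exact hb1 j hj
    · apply V.valuation.map_sum_le
      intro j hj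
      rw [← hsame]
      exact hb2 j hj
  · intro hle
    rw [hσx, ← Finset.sum_sub_distrib]
    apply V.valuation.map_sum_lt one_ne_zero
    intro j hj
    have h1 : V.valuation (a j * (ζ - 1) ^ j) ≤ 1 := (hb1 j hj).trans hle
    rw [← mul_sub, map_mul]
    rcases Nat.eq_zero_or_pos j with rfl | hjpos
    · simp
    rcases eq_or_ne (a j) 0 with h0 | h0
    · rw [h0, map_zero, zero_mul]
      exact zero_lt_one
    obtain ⟨k, hk⟩ := hexp j h0
    have hle1 : V.valuation (a j) ≤ 1 := by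
      rw [map_mul, map_pow, hk, ← zpow_natCast, ← zpow_add₀ hπ0] at h1
      have h2 : (0 : ℤ) ≤ (q - 1 : ℕ) * k + j := by
        by_contra hcon
        push Not at hcon
        have := zpow_right_strictAnti₀ (zero_lt_iff.mpr hπ0) hπ1 hcon
        simp only [zpow_zero] at this
        exact absurd h1 (not_le.mpr this)
      rw [Finset.mem_range] at hj
      have h3 : 0 ≤ k := by
        by_contra hcon
        push Not at hcon
        have : ((q - 1 : ℕ) : ℤ) * k ≤ ((q - 1 : ℕ) : ℤ) * (-1) :=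
          mul_le_mul_of_nonneg_left (by omega) (by positivity)
        omega
      rw [hk]
      have := (zpow_right_strictAnti₀ (zero_lt_iff.mpr hπ0) hπ1).antitone
        (show (0 : ℤ) ≤ (q - 1 : ℕ) * k by positivity)
      simpa using this
    have h2 : V.valuation ((σ ζ - 1) ^ j - (ζ - 1) ^ j) ≤ V.valuation (ζ - 1) ^ j := by
      refine (V.valuation.map_sub _ _).trans ?_
      rw [map_pow, map_pow, hσπ, max_self]
    calc V.valuation (a j) * V.valuation ((σ ζ - 1) ^ j - (ζ - 1) ^ j)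
        ≤ 1 * V.valuation (ζ - 1) ^ j := mul_le_mul' hle1 h2
      _ < 1 := by
        rw [one_mul]
        exact pow_lt_one₀ zero_le hπ1 hjpos.ne'

/-- the values of the elements of a subfield of `E(ζ)` of degree `d` over `E` -/
lemma val_pow_finrank (E : IntermediateField ℚ Qb) {ζ : Qb} (hq : q.Prime)
    (h : IsPrimitiveRoot ζ q) (hV : V.valuation (q : Qb) < 1)
    (hE : ∀ x ∈ E, x ≠ 0 → ∃ k : ℤ, V.valuation x = V.valuation (q : Qb) ^ k)
    (M : IntermediateField E Qb) [FiniteDimensional E M] (hM : M ≤ IntermediateField.adjoin E {ζ})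
    (y : Qb) (hy : y ∈ M) (hy0 : y ≠ 0) :
    ∃ k : ℤ, V.valuation y ^ Module.finrank E M = V.valuation (q : Qb) ^ k := by
  have h1 := Algebra.norm_eq_prod_embeddings E Qb (⟨y, hy⟩ : M)
  have hne : (⟨y, hy⟩ : M) ≠ 0 := by
    intro h0
    exact hy0 (congrArg Subtype.val h0)
  have hn : Algebra.norm E (⟨y, hy⟩ : M) ≠ 0 := (Algebra.norm_ne_zero_iff).mpr hne
  obtain ⟨k, hk⟩ := hE ((Algebra.norm E (⟨y, hy⟩ : M) : E) : Qb) (Algebra.norm E (⟨y, hy⟩ : M)).2
    (by
      intro h0
      exact hn (Subtype.ext h0))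
  refine ⟨k, ?_⟩
  rw [← hk]
  have h2 : ((Algebra.norm E (⟨y, hy⟩ : M) : E) : Qb) = ∏ σ : M →ₐ[E] Qb, σ ⟨y, hy⟩ := h1
  rw [h2, map_prod]
  have h3 : ∀ σ ∈ (Finset.univ : Finset (M →ₐ[E] Qb)), V.valuation (σ ⟨y, hy⟩) = V.valuation y := by
    intro σ _
    have hnorm : Normal E Qb := inferInstance
    have h4 := (val_aut V E hq h hV hE y (hM hy) (σ.liftNormal Qb)).1
    rw [← h4]
    congr 1
    exact (AlgHom.liftNormal_commutes σ Qb ⟨y, hy⟩).symm
  rw [Finset.prod_congr rfl h3, Finset.prod_const, Finset.card_univ, AlgHom.card E M Qb]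

/-- **The inertia inequality.** -/
theorem inertia_ineq (E : IntermediateField ℚ Qb) {ζ : Qb} (hq : q.Prime)
    (h : IsPrimitiveRoot ζ q) (hV : V.valuation (q : Qb) < 1)
    (hE : ∀ x ∈ E, x ≠ 0 → ∃ k : ℤ, V.valuation x = V.valuation (q : Qb) ^ k)
    (M : IntermediateField E Qb) [FiniteDimensional E M] (hM : M ≤ IntermediateField.adjoin E {ζ})
    (ℓ : ℕ) (hℓ : Module.finrank E M ≤ ℓ) (x : Qb) (hx : x ∈ M) (σ : Qb →ₐ[E] Qb)
    (hσ : σ x ∈ M) :
    V.valuation (σ x - x) ^ ℓ ≤ V.valuation (q : Qb) *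
      (max 1 (V.valuation x) ^ ℓ * max 1 (V.valuation (σ x)) ^ ℓ) := by
  have hq0 : V.valuation (q : Qb) ≠ 0 := by
    rw [Valuation.ne_zero_iff]
    exact_mod_cast hq.ne_zero
  have hd : 0 < Module.finrank E M := Module.finrank_pos
  -- elements of value less than one
  have key : ∀ y ∈ M, V.valuation y < 1 → V.valuation y ^ ℓ ≤ V.valuation (q : Qb) := by
    intro y hy hy1
    rcases eq_or_ne y 0 with rfl | hy0
    · rw [map_zero, zero_pow (by omega)]
      exact zero_le
    obtain ⟨k, hk⟩ := val_pow_finrank V E hq h hV hE M hM y hy hy0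
    have h1 : V.valuation (q : Qb) ^ k < 1 := by
      rw [← hk]
      exact pow_lt_one₀ zero_le hy1 hd.ne'
    have h2 : 1 ≤ k := by
      by_contra hcon
      push Not at hcon
      have := (zpow_right_strictAnti₀ (zero_lt_iff.mpr hq0) hV).antitone (show k ≤ 0 by omega)
      simp only [zpow_zero] at this
      exact absurd h1 (not_lt.mpr this)
    calc V.valuation y ^ ℓ ≤ V.valuation y ^ Module.finrank E M :=
          pow_le_pow_right_of_le_one' hy1.le hℓ
      _ = V.valuation (q : Qb) ^ k := hk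
      _ ≤ V.valuation (q : Qb) ^ (1 : ℤ) :=
          (zpow_right_strictAnti₀ (zero_lt_iff.mpr hq0) hV).antitone h2
      _ = V.valuation (q : Qb) := zpow_one _
  obtain ⟨e1, -⟩ := val_aut V E hq h hV hE x (hM hx) σ
  rcases le_or_gt (V.valuation x) 1 with hle | hgt
  · obtain ⟨-, e2⟩ := val_aut V E hq h hV hE x (hM hx) σ
    have h1 := key _ (M.sub_mem hσ hx) (e2 hle)
    refine h1.trans ?_
    refine le_mul_of_one_le_right' ?_
    exact one_le_mul (one_le_pow₀ (le_max_left _ _)) (one_le_pow₀ (le_max_left _ _))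
  · have hx0 : x ≠ 0 := by
      rintro rfl
      rw [map_zero] at hgt
      exact absurd hgt (not_lt.mpr zero_le)
    have hσx0 : σ x ≠ 0 := by
      intro h0
      exact hx0 ((map_eq_zero σ).mp h0)
    have hinv : V.valuation x⁻¹ ≤ 1 := by
      rw [map_inv₀]
      exact inv_le_one_of_one_le₀ hgt.le
    obtain ⟨-, e2⟩ := val_aut V E hq h hV hE x⁻¹ (hM (M.inv_mem hx)) σ
    have h1 := key (σ x⁻¹ - x⁻¹) (M.sub_mem (by rw [map_inv₀]; exact M.inv_mem hσ)
      (M.inv_mem hx)) (e2 hinv)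
    have h2 : σ x - x = -((σ x⁻¹ - x⁻¹) * (x * σ x)) := by
      rw [map_inv₀]
      field_simp
      ring
    rw [h2, Valuation.map_neg, map_mul, map_mul, mul_pow, mul_pow]
    refine mul_le_mul' h1 (mul_le_mul' ?_ ?_)
    · exact pow_le_pow_left₀ zero_le (le_max_right _ _) _
    · exact pow_le_pow_left₀ zero_le (le_max_right _ _) _

end Pool.Agent.Q281.USB
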