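import Mathlib
import Pool.Agent.Q281.USB.Eis

set_option autoImplicit false

/-!
# A lower bound for heights from inertia
-/

namespace Pool.Agent.Q281.USB

open NumberField Height Module
open Pool.Agent.Helper259.AbsHt
open Pool.Agent.H58P (Qb ht qb_isIntegral)
open Pool.Agent.H58B (exists_valuationSubring ht_conj absLogHeight_four ht_pow)

/-- a lower bound for the height of a vector from local conditions -/
theorem height_ge {ι : Type*} [Finite ι] [Nonempty ι] (x : ι → Qb) (R : ℝ) (hR : 0 < R)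
    (hV : ∀ V : ValuationSubring Qb, ∃ i, 1 ≤ V.valuation (x i))
    (hφ : ∀ φ : Qb →+* ℂ, ∃ i, R ≤ ‖φ (x i)‖) : Real.log R ≤ absLogHeight x := by
  obtain ⟨L, hL, hmem⟩ := exists_nf (Set.range x) (Set.finite_range x)
  obtain ⟨y, rfl⟩ := lift_vec L x fun i => hmem _ ⟨i, rfl⟩
  rw [val_eq, le_div_iff₀ (finrank_pos' L), logHeight_eq_log_mulHeight]
  have hy : y ≠ 0 := by
    rintro rfl
    obtain ⟨V⟩ : Nonempty (ValuationSubring Qb) := inferInstance
    obtain ⟨i, hi⟩ := hV V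
    simp at hi
  have hbdd : ∀ v : L → ℝ, BddAbove (Set.range fun i => v (y i)) := fun v =>
    (Set.finite_range _).bddAbove
  have h1 : R ^ finrank ℚ L ≤ ∏ v : InfinitePlace L, (⨆ i, v (y i)) ^ v.mult := by
    rw [← InfinitePlace.sum_mult_eq (K := L), ← Finset.prod_pow_eq_pow_sum]
    apply Finset.prod_le_prod
    · intro v _
      positivity
    · intro v _
      apply pow_le_pow_left₀ hR.le
      -- extend the embedding
      let _ : Algebra L ℂ := v.embedding.toAlgebra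
      have halg : Algebra.IsAlgebraic L Qb := ⟨fun z =>
        ((qb_isIntegral z).tower_top (A := L)).isAlgebraic⟩
      let ψ : Qb →ₐ[L] ℂ := IsAlgClosed.lift
      obtain ⟨i, hi⟩ := hφ (ψ : Qb →+* ℂ)
      have h2 : v (y i) = ‖(ψ : Qb →+* ℂ) (y i : Qb)‖ := by
        have h3 : (ψ : Qb →+* ℂ) (y i : Qb) = v.embedding (y i) := ψ.commutes (y i)
        rw [h3, InfinitePlace.norm_embedding_eq]
      rw [← h2] at hi
      exact hi.trans (le_ciSup (hbdd v) i)
  have h2 : (1 : ℝ) ≤ ∏ᶠ v : FinitePlace L, ⨆ i, v (y i) := by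
    apply one_le_finprod
    intro v
    obtain ⟨V, hVv⟩ := exists_valuationSubring L v
    obtain ⟨i, hi⟩ := hV V
    have h3 : 1 ≤ v (y i) := by
      by_contra hcon
      exact absurd (hVv (y i) (not_le.mp hcon)) (not_lt.mpr hi)
    exact h3.trans (le_ciSup (hbdd v) i)
  rw [NumberField.mulHeight_eq hy, mul_comm (Real.log R), ← Real.log_pow]
  apply Real.log_le_log (by positivity)
  have h3 : (0 : ℝ) < R ^ finrank ℚ L := by positivity
  calc R ^ finrank ℚ L = R ^ finrank ℚ L * 1 := (mul_one _).symm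
    _ ≤ _ := mul_le_mul h1 h2 zero_le_one (h3.le.trans h1)

/-- the height bound -/
theorem ht_ge_of_ineq (q : ℕ) (hq : q.Prime) (ℓ : ℕ) (hℓ : 0 < ℓ) (α β : Qb) (hβ : ht β = ht α)
    (hne : β ≠ α)
    (hV : ∀ V : ValuationSubring Qb, V.valuation (q : Qb) < 1 →
      V.valuation (β - α) ^ ℓ ≤ V.valuation (q : Qb) *
        (max 1 (V.valuation α) ^ ℓ * max 1 (V.valuation β) ^ ℓ)) :
    (Real.log q - ℓ * Real.log 2) / (2 * ℓ) ≤ ht α := by
  set D := β - α with hDdef
  have hD0 : D ≠ 0 := sub_ne_zero.mpr hne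
  have hq0 : (q : Qb) ≠ 0 := by exact_mod_cast hq.ne_zero
  set c : Qb := (q : Qb) * (D ^ ℓ)⁻¹ with hc
  have hc0 : c ≠ 0 := mul_ne_zero hq0 (inv_ne_zero (pow_ne_zero _ hD0))
  set w : Fin 2 × Fin 2 → Qb := fun a =>
    (![1, α ^ ℓ] : Fin 2 → Qb) a.1 * (![1, β ^ ℓ] : Fin 2 → Qb) a.2 with hw
  have hsm : absLogHeight (c • w) = absLogHeight w := absLogHeight_smul w hc0
  have h4 : absLogHeight w = 2 * ℓ * ht α := by
    rw [hw, absLogHeight_four, ht_pow, ht_pow, hβ]
    ring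
  have key : Real.log (q / 2 ^ ℓ) ≤ absLogHeight (c • w) := by
    apply height_ge _ _ (by
      have := hq.pos
      positivity)
    · intro V
      -- choose the largest product
      obtain ⟨a, ha⟩ : ∃ a : Fin 2 × Fin 2, V.valuation (w a) =
          max 1 (V.valuation α) ^ ℓ * max 1 (V.valuation β) ^ ℓ := by
        have h5 : ∀ z : Qb, ∃ i : Fin 2, V.valuation ((![1, z ^ ℓ] : Fin 2 → Qb) i) =
            max 1 (V.valuation z) ^ ℓ := by
          intro z
          rcases le_total (V.valuation z) 1 with h | h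
          · exact ⟨0, by simp [max_eq_left h]⟩
          · exact ⟨1, by simp [max_eq_right h]⟩
        obtain ⟨i, hi⟩ := h5 α
        obtain ⟨j, hj⟩ := h5 β
        exact ⟨(i, j), by rw [hw]; simp only; rw [map_mul, hi, hj]⟩
      refine ⟨a, ?_⟩
      have hvD : V.valuation D ^ ℓ ≠ 0 := pow_ne_zero _ ((Valuation.ne_zero_iff _).mpr hD0)
      rw [Pi.smul_apply, smul_eq_mul, map_mul, ha, hc, map_mul, map_inv₀, map_pow]
      have hqV : V.valuation (q : Qb) ≤ 1 := by
        rw [ValuationSubring.valuation_le_one_iff]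
        exact natCast_mem V q
      have h6 : V.valuation D ^ ℓ ≤ V.valuation (q : Qb) *
          (max 1 (V.valuation α) ^ ℓ * max 1 (V.valuation β) ^ ℓ) := by
        rcases lt_or_eq_of_le hqV with h | h
        · exact hV V h
        · rw [h, one_mul, ← mul_pow]
          apply pow_le_pow_left₀ zero_le
          refine (V.valuation.map_sub β α).trans (max_le ?_ ?_)
          · calc V.valuation β ≤ max 1 (V.valuation β) := le_max_right _ _
              _ ≤ _ := le_mul_of_one_le_left' (le_max_left _ _)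
          · calc V.valuation α ≤ max 1 (V.valuation α) := le_max_right _ _
              _ ≤ _ := le_mul_of_one_le_right' (le_max_left _ _)
      calc (1 : V.ValueGroup) = (V.valuation D ^ ℓ)⁻¹ * V.valuation D ^ ℓ := (inv_mul_cancel₀ hvD).symm
        _ ≤ (V.valuation D ^ ℓ)⁻¹ * (V.valuation (q : Qb) *
          (max 1 (V.valuation α) ^ ℓ * max 1 (V.valuation β) ^ ℓ)) := mul_le_mul_right h6 _
        _ = _ := by
          rw [← mul_assoc, mul_comm (V.valuation D ^ ℓ)⁻¹]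
    · intro φ
      obtain ⟨a, ha⟩ : ∃ a : Fin 2 × Fin 2, ‖φ (w a)‖ = max 1 ‖φ α‖ ^ ℓ * max 1 ‖φ β‖ ^ ℓ := by
        have h5 : ∀ z : Qb, ∃ i : Fin 2, ‖φ ((![1, z ^ ℓ] : Fin 2 → Qb) i)‖ = max 1 ‖φ z‖ ^ ℓ := by
          intro z
          rcases le_total ‖φ z‖ 1 with h | h
          · exact ⟨0, by simp [max_eq_left h]⟩
          · exact ⟨1, by simp [max_eq_right h]⟩
        obtain ⟨i, hi⟩ := h5 α
        obtain ⟨j, hj⟩ := h5 β
        exact ⟨(i, j), by rw [hw]; simp only; rw [map_mul, norm_mul, hi, hj]⟩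
      refine ⟨a, ?_⟩
      have hnD : 0 < ‖φ D‖ := norm_pos_iff.mpr (by
        intro h
        exact hD0 ((map_eq_zero φ).mp h))
      rw [Pi.smul_apply, smul_eq_mul, map_mul, norm_mul, ha, hc, map_mul, map_inv₀, map_pow,
        map_natCast, norm_mul, Complex.norm_natCast, norm_inv, norm_pow]
      have h6 : ‖φ D‖ ≤ 2 * (max 1 ‖φ α‖ * max 1 ‖φ β‖) := by
        have h7 : ‖φ D‖ ≤ ‖φ β‖ + ‖φ α‖ := by
          rw [hDdef, map_sub]
          exact norm_sub_le _ _
        have a1 : (1 : ℝ) ≤ max 1 ‖φ α‖ := le_max_left _ _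
        have a2 : (1 : ℝ) ≤ max 1 ‖φ β‖ := le_max_left _ _
        have a3 : ‖φ α‖ ≤ max 1 ‖φ α‖ := le_max_right _ _
        have a4 : ‖φ β‖ ≤ max 1 ‖φ β‖ := le_max_right _ _
        nlinarith
      have h8 : ‖φ D‖ ^ ℓ ≤ 2 ^ ℓ * (max 1 ‖φ α‖ ^ ℓ * max 1 ‖φ β‖ ^ ℓ) := by
        rw [← mul_pow, ← mul_pow]
        exact pow_le_pow_left₀ hnD.le h6 ℓ
      rw [div_le_iff₀ (by positivity)]
      have h9 : (0 : ℝ) < ‖φ D‖ ^ ℓ := by positivity
      calc (q : ℝ) = q * (‖φ D‖ ^ ℓ)⁻¹ * ‖φ D‖ ^ ℓ := by field_simp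
        _ ≤ q * (‖φ D‖ ^ ℓ)⁻¹ * (2 ^ ℓ * (max 1 ‖φ α‖ ^ ℓ * max 1 ‖φ β‖ ^ ℓ)) := by
          apply mul_le_mul_of_nonneg_left h8
          positivity
        _ = _ := by ring
  rw [hsm, h4, Real.log_div (by exact_mod_cast hq.ne_zero) (by positivity), Real.log_pow] at key
  rw [div_le_iff₀ (by positivity)]
  linarith

end Pool.Agent.Q281.USB
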