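import Mathlib

set_option autoImplicit false

/-!
# The residue field of a finite extension of a local field
-/

namespace Pool.Agent.Q281.USB

open IsLocalRing

/-- a finite set of elements closed under the Frobenius map is fixed by a power of it -/
lemma exists_frob_pow {κ : Type*} [Field κ] (p : ℕ) [Fact p.Prime] [CharP κ p] (S : Subring κ)
    (hS : (S : Set κ).Finite) : ∃ r : ℕ, 0 < r ∧ ∀ x ∈ S, x ^ p ^ r = x := by
  have : Finite S := hS
  have hinj : Function.Injective (frobenius S p) := frobenius_inj S p
  have hbij : Function.Bijective (frobenius S p) := Finite.injective_iff_bijective.mp hinj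
  let e : Equiv.Perm S := Equiv.ofBijective _ hbij
  refine ⟨orderOf e, orderOf_pos e, fun x hx => ?_⟩
  have h1 : (e ^ orderOf e) ⟨x, hx⟩ = ⟨x, hx⟩ := by rw [pow_orderOf_eq_one]; rfl
  have h2 : ∀ n : ℕ, ((e ^ n) ⟨x, hx⟩ : κ) = x ^ p ^ n := by
    intro n
    induction n with
    | zero => simp
    | succ n ih =>
      rw [pow_succ', Equiv.Perm.mul_apply]
      have h3 : ∀ y : S, ((e y : S) : κ) = (y : κ) ^ p := fun y => rfl
      rw [h3, ih, ← pow_mul, ← pow_succ]
  rw [← h2, h1]

theorem residue_frob {O k Ω : Type} [CommRing O] [IsDomain O] [IsDiscreteValuationRing O]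
    [Field k] [Field Ω] [Algebra O k] [IsFractionRing O k] [Algebra k Ω] [Algebra O Ω]
    [IsScalarTower O k Ω] [CharZero k] [Finite (ResidueField O)]
    (N : IntermediateField k Ω) [FiniteDimensional k N] :
    ∃ (κ : Type) (_ : Field κ) (ρ : integralClosure O Ω →+* κ) (p r : ℕ), p.Prime ∧ 0 < r ∧
      CharP κ p ∧ ∀ x : integralClosure O Ω, (x : Ω) ∈ N → ρ x ^ (p ^ r) = ρ x := by
  have hinjO : Function.Injective (algebraMap O Ω) := by
    rw [IsScalarTower.algebraMap_eq O k Ω]
    exact (algebraMap k Ω).injective.comp (IsFractionRing.injective O k)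
  have hinjI : Function.Injective (algebraMap O (integralClosure O Ω)) := by
    intro x y hxy
    exact hinjO (congrArg (fun z : integralClosure O Ω => (z : Ω)) hxy)
  obtain ⟨Q, hQ, hQO⟩ := Ideal.exists_ideal_over_maximal_of_isIntegral
    (S := integralClosure O Ω) (maximalIdeal O) (by
      rw [(RingHom.injective_iff_ker_eq_bot _).mp hinjI]
      exact bot_le)
  let _ : Field (integralClosure O Ω ⧸ Q) := Ideal.Quotient.field Q
  let f : ResidueField O →+* (integralClosure O Ω ⧸ Q) :=
    Ideal.quotientMap Q (algebraMap O (integralClosure O Ω)) hQO.ge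
  have hf : ∀ c : O, f (residue O c) = Ideal.Quotient.mk Q (algebraMap O (integralClosure O Ω) c) :=
    fun c => rfl
  obtain ⟨p, hp⟩ := CharP.exists (ResidueField O)
  have hpp : p.Prime := CharP.char_is_prime (ResidueField O) p
  have hchar : CharP (integralClosure O Ω ⧸ Q) p := charP_of_injective_ringHom f.injective p
  have : Fact p.Prime := ⟨hpp⟩
  -- the integers of `N`
  have hfin : Module.Finite O (integralClosure O N) :=
    IsIntegralClosure.finite O k N (integralClosure O N)
  have htow : IsScalarTower O N Ω := IsScalarTower.of_algebraMap_eq fun _ => rfl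
  let g : integralClosure O N →+* integralClosure O Ω :=
    { toFun := fun x => ⟨((x : N) : Ω), by
        have := x.2
        exact this.map (IsScalarTower.toAlgHom O N Ω)⟩
      map_one' := rfl
      map_mul' := fun _ _ => rfl
      map_zero' := rfl
      map_add' := fun _ _ => rfl }
  let τ : integralClosure O N →+* (integralClosure O Ω ⧸ Q) := (Ideal.Quotient.mk Q).comp g
  have hτ : (τ.range : Set (integralClosure O Ω ⧸ Q)).Finite := by
    obtain ⟨s, hs⟩ := hfin.fg_top
    let _ : Algebra (ResidueField O) (integralClosure O Ω ⧸ Q) := f.toAlgebra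
    have h1 : ∀ x : integralClosure O N, τ x ∈ Submodule.span (ResidueField O) (τ '' s) := by
      intro x
      have hx : x ∈ Submodule.span O (s : Set (integralClosure O N)) := by
        rw [hs]
        trivial
      induction hx using Submodule.span_induction with
      | mem x hx => exact Submodule.subset_span ⟨x, hx, rfl⟩
      | zero => rw [map_zero]; exact Submodule.zero_mem _
      | add x y _ _ hx hy => rw [map_add]; exact Submodule.add_mem _ hx hy
      | smul c x _ hx =>
        have h2 : τ (c • x) = residue O c • τ x := by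
          rw [Algebra.smul_def, Algebra.smul_def, map_mul]
          rfl
        rw [h2]
        exact Submodule.smul_mem _ _ hx
    have h2 : Finite (Submodule.span (ResidueField O) (τ '' s)) := by
      have : Module.Finite (ResidueField O) (Submodule.span (ResidueField O) (τ '' s)) :=
        Module.Finite.span_of_finite _ ((Finset.finite_toSet s).image _)
      exact Module.finite_of_finite (ResidueField O)
    refine Set.Finite.subset (Set.toFinite (Submodule.span (ResidueField O) (τ '' s) : Set _)) ?_
    rintro _ ⟨x, rfl⟩
    exact h1 x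
  obtain ⟨r, hr, hr2⟩ := exists_frob_pow p τ.range hτ
  refine ⟨_, _, Ideal.Quotient.mk Q, p, r, hpp, hr, hchar, ?_⟩
  intro x hx
  apply hr2
  have hint : IsIntegral O (⟨(x : Ω), hx⟩ : N) := by
    have h1 : IsIntegral O (x : Ω) := x.2
    exact (isIntegral_algHom_iff (IsScalarTower.toAlgHom O N Ω)
      (algebraMap N Ω).injective).mp h1
  exact ⟨⟨⟨(x : Ω), hx⟩, hint⟩, rfl⟩

end Pool.Agent.Q281.USB
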