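import Mathlib
import Pool.Agent.Q281.USB.HtB

set_option autoImplicit false

/-!
# Gaussian periods
-/

namespace Pool.Agent.Q281.USB

open NumberField IsDedekindDomain Module
open Pool.Agent.H58P (Qb ht qb_isIntegral)
open Pool.Agent.H58B (ht_conj)

/-- a primitive `q`-th root of unity -/
noncomputable def zeta (q : ℕ) : Qb := if h : 0 < q then (exists_prim q h).choose else 1

lemma zeta_prim (q : ℕ) (hq : 0 < q) : IsPrimitiveRoot (zeta q) q := by
  rw [zeta, dif_pos hq]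
  exact (exists_prim q hq).choose_spec

lemma fix_adjoin {K : Type*} [Field K] [Algebra K Qb] (τ : Qb ≃ₐ[K] Qb) (S : Set Qb)
    (h : ∀ x ∈ S, τ x = x) (x : Qb) (hx : x ∈ IntermediateField.adjoin K S) : τ x = x := by
  induction hx using IntermediateField.adjoin_induction with
  | mem x hx => exact h x hx
  | algebraMap x => exact τ.commutes x
  | add x y _ _ hx hy => rw [map_add, hx, hy]
  | inv x _ hx => rw [map_inv₀, hx]
  | mul x y _ _ hx hy => rw [map_mul, hx, hy]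

section one

variable (ℓ q : ℕ) [hq : Fact q.Prime]

/-- the additive character -/
noncomputable def ec (a : ZMod q) : Qb := zeta q ^ a.val

lemma zeta_pow_eq {a b : ℕ} (h : a ≡ b [MOD q]) : zeta q ^ a = zeta q ^ b := by
  have h1 : zeta q ^ q = 1 := (zeta_prim q hq.out.pos).pow_eq_one
  rw [← Nat.mod_add_div a q, ← Nat.mod_add_div b q, pow_add, pow_add, pow_mul, pow_mul, h1,
    one_pow, one_pow, h]

lemma ec_natCast (a : ℕ) : ec q (a : ZMod q) = zeta q ^ a := by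
  rw [ec]
  apply zeta_pow_eq
  rw [← ZMod.natCast_eq_natCast_iff, ZMod.natCast_zmod_val]

lemma ec_pow (a : ZMod q) (c : ℕ) : ec q a ^ c = ec q (c * a) := by
  rw [ec, ← pow_mul, ← ec_natCast]
  congr 1
  push_cast
  rw [ZMod.natCast_zmod_val, mul_comm]

lemma ec_add (a b : ZMod q) : ec q (a + b) = ec q a * ec q b := by
  rw [ec, ec, ec, ← pow_add]
  apply zeta_pow_eq
  rw [← ZMod.natCast_eq_natCast_iff]
  push_cast
  rw [ZMod.natCast_zmod_val, ZMod.natCast_zmod_val, ZMod.natCast_zmod_val]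

lemma ec_zero : ec q 0 = 1 := by
  rw [ec, ZMod.val_zero, pow_zero]

lemma ec_pow_q (a : ZMod q) : ec q a ^ q = 1 := by
  rw [ec_pow, ZMod.natCast_self, zero_mul, ec_zero]

/-- the group of `ℓ`-th powers -/
def pwr : Subgroup (ZMod q)ˣ := (powMonoidHom ℓ : (ZMod q)ˣ →* (ZMod q)ˣ).range

noncomputable instance : Fintype (pwr ℓ q) := Fintype.ofFinite _

/-- the periods -/
noncomputable def eta (a : ZMod q) : Qb :=
  ∑ s : pwr ℓ q, ec q (a * ((s : (ZMod q)ˣ) : ZMod q))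

lemma eta_mul (a : ZMod q) (u : (ZMod q)ˣ) (hu : u ∈ pwr ℓ q) : eta ℓ q (a * u) = eta ℓ q a := by
  rw [eta, eta]
  apply Fintype.sum_equiv (Equiv.mulLeft (⟨u, hu⟩ : pwr ℓ q))
  intro s
  congr 1
  simp [mul_assoc]

lemma eta_aut (a : ZMod q) (c : ℕ) (F : Type*) [FunLike F Qb Qb] [RingHomClass F Qb Qb] (σ : F)
    (hσ : σ (zeta q) = zeta q ^ c) : σ (eta ℓ q a) = eta ℓ q (c * a) := by
  rw [eta, eta, map_sum]
  refine Finset.sum_congr rfl fun s _ => ?_
  have h1 : ∀ b : ZMod q, σ (ec q b) = ec q (c * b) := by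
    intro b
    rw [ec, map_pow, hσ, ← pow_mul, mul_comm, pow_mul, ← ec, ec_pow]
  rw [h1, mul_assoc]

lemma eta_mem_adjoin (K : Type*) [Field K] [Algebra K Qb] (a : ZMod q) :
    eta ℓ q a ∈ IntermediateField.adjoin K {zeta q} := by
  rw [eta]
  refine sum_mem fun s _ => ?_
  rw [ec]
  exact pow_mem (IntermediateField.mem_adjoin_simple_self K _) _

/-- automorphisms act by powers on `zeta` -/
lemma exists_pow (F : Type*) [FunLike F Qb Qb] [RingHomClass F Qb Qb] (σ : F) :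
    ∃ u : (ZMod q)ˣ, σ (zeta q) = zeta q ^ ((u : ZMod q)).val := by
  have hz := zeta_prim q hq.out.pos
  have hinj : Function.Injective σ := (RingHomClass.toRingHom σ).injective
  have h1 : IsPrimitiveRoot (σ (zeta q)) q := hz.map_of_injective hinj
  obtain ⟨i, hi, hc, h2⟩ := hz.isPrimitiveRoot_iff.mp h1
  refine ⟨ZMod.unitOfCoprime i hc, ?_⟩
  rw [← h2]
  apply zeta_pow_eq
  rw [ZMod.coe_unitOfCoprime, ← ZMod.natCast_eq_natCast_iff, ZMod.natCast_zmod_val]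

lemma index_pwr_le (hℓ : 0 < ℓ) : (pwr ℓ q).index ≤ ℓ := by
  rw [pwr, IsCyclic.index_powMonoidHom_range]
  exact Nat.gcd_le_right _ hℓ

/-- the field generated by the periods over `E` -/
noncomputable def MM (E : IntermediateField ℚ Qb) : IntermediateField E Qb :=
  IntermediateField.adjoin E (Set.range (eta ℓ q))

lemma eta_mem_MM (E : IntermediateField ℚ Qb) (a : ZMod q) : eta ℓ q a ∈ MM ℓ q E :=
  IntermediateField.subset_adjoin _ _ ⟨_, rfl⟩

lemma MM_le (E : IntermediateField ℚ Qb) : MM ℓ q E ≤ IntermediateField.adjoin E {zeta q} := by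
  rw [MM, IntermediateField.adjoin_le_iff]
  rintro x ⟨a, rfl⟩
  exact eta_mem_adjoin ℓ q E a

instance (E : IntermediateField ℚ Qb) : FiniteDimensional E (MM ℓ q E) := by
  unfold MM
  apply IntermediateField.finiteDimensional_adjoin
  rintro x -
  exact (qb_isIntegral x).tower_top

lemma MM_stable (E : IntermediateField ℚ Qb) (σ : Qb →ₐ[E] Qb) (x : Qb) (hx : x ∈ MM ℓ q E) :
    σ x ∈ MM ℓ q E := by
  unfold MM at hx
  induction hx using IntermediateField.adjoin_induction with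
  | mem x hx =>
    obtain ⟨a, rfl⟩ := hx
    obtain ⟨u, hu⟩ := exists_pow q _ σ
    rw [eta_aut ℓ q a _ _ σ hu]
    exact IntermediateField.subset_adjoin _ _ ⟨_, rfl⟩
  | algebraMap x =>
    rw [σ.commutes]
    exact (MM ℓ q E).algebraMap_mem x
  | add x y _ _ hx hy => rw [map_add]; exact add_mem hx hy
  | inv x _ hx => rw [map_inv₀]; exact inv_mem hx
  | mul x y _ _ hx hy => rw [map_mul]; exact mul_mem hx hy

lemma MM_finrank (E : IntermediateField ℚ Qb) (hℓ : 0 < ℓ) : finrank E (MM ℓ q E) ≤ ℓ := by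
  refine le_trans ?_ (index_pwr_le ℓ q hℓ)
  rw [← AlgHom.card E (MM ℓ q E) Qb, Subgroup.index, ← Nat.card_eq_fintype_card]
  have hnorm : Normal E Qb := inferInstance
  have h1 : ∀ φ : MM ℓ q E →ₐ[E] Qb, ∃ u : (ZMod q)ˣ,
      ∀ a : ZMod q, φ ⟨eta ℓ q a, IntermediateField.subset_adjoin _ _ ⟨a, rfl⟩⟩ =
        eta ℓ q (u * a) := by
    intro φ
    obtain ⟨u, hu⟩ := exists_pow q _ (φ.liftNormal Qb)
    refine ⟨u, fun a => ?_⟩
    have h2 := eta_aut ℓ q a _ _ (φ.liftNormal Qb) hu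
    rw [ZMod.natCast_zmod_val] at h2
    rw [← h2]
    exact (AlgHom.liftNormal_commutes φ Qb ⟨eta ℓ q a, _⟩).symm
  choose u hu using h1
  apply Nat.card_le_card_of_injective
    (fun φ : MM ℓ q E →ₐ[E] Qb => (QuotientGroup.mk (u φ) : (ZMod q)ˣ ⧸ pwr ℓ q))
  intro φ ψ hφψ
  simp only at hφψ
  rw [QuotientGroup.eq] at hφψ
  apply IntermediateField.algHom_ext_of_eq_adjoin E (S := MM ℓ q E) rfl
  rintro x ⟨a, rfl⟩
  rw [hu φ a, hu ψ a, ← eta_mul ℓ q ((u φ : ZMod q) * a) _ hφψ]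
  congr 1
  rw [Units.val_mul, mul_comm (u φ : ZMod q) a, mul_assoc, Units.mul_inv_cancel_left, mul_comm]

end one

section tower

variable (ℓ q : ℕ → ℕ) [hq : ∀ n, Fact (q n).Prime]

/-- the conductor -/
def cond (n : ℕ) : ℕ := ∏ j ∈ Finset.range n, q j

lemma cond_pos (n : ℕ) : 0 < cond q n := Finset.prod_pos fun j _ => (hq j).out.pos

lemma cond_coprime (hinj : Function.Injective q) (n : ℕ) : (cond q n).Coprime (q n) := by
  apply Nat.Coprime.prod_left
  intro j hj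
  rw [Nat.coprime_primes (hq j).out (hq n).out]
  intro h
  rw [hinj h, Finset.mem_range] at hj
  exact lt_irrefl _ hj

omit hq in
lemma dvd_cond {n j : ℕ} (hj : j < n) : q j ∣ cond q n :=
  Finset.dvd_prod_of_mem _ (Finset.mem_range.mpr hj)

/-- the fields -/
noncomputable def KK (n : ℕ) : IntermediateField ℚ Qb :=
  IntermediateField.adjoin ℚ {x | ∃ j, j < n ∧ ∃ a, x = eta (ℓ j) (q j) a}

/-- the union of the fields -/
noncomputable def FF : IntermediateField ℚ Qb :=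
  IntermediateField.adjoin ℚ {x | ∃ j, ∃ a, x = eta (ℓ j) (q j) a}

lemma KK_le_FF (n : ℕ) : KK ℓ q n ≤ FF ℓ q := by
  apply IntermediateField.adjoin.mono
  rintro x ⟨j, -, a, h⟩
  exact ⟨j, a, h⟩

lemma KK_mono {m n : ℕ} (h : m ≤ n) : KK ℓ q m ≤ KK ℓ q n := by
  apply IntermediateField.adjoin.mono
  rintro x ⟨j, hj, a, h1⟩
  exact ⟨j, hj.trans_le h, a, h1⟩

lemma mem_FF {x : Qb} (hx : x ∈ FF ℓ q) : ∃ n, x ∈ KK ℓ q n := by
  induction hx using IntermediateField.adjoin_induction with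
  | mem x hx =>
    obtain ⟨j, a, rfl⟩ := hx
    exact ⟨j + 1, IntermediateField.subset_adjoin _ _ ⟨j, Nat.lt_succ_self j, a, rfl⟩⟩
  | algebraMap x => exact ⟨0, (KK ℓ q 0).algebraMap_mem x⟩
  | add x y _ _ hx hy =>
    obtain ⟨n, hn⟩ := hx
    obtain ⟨m, hm⟩ := hy
    exact ⟨max n m, add_mem (KK_mono ℓ q (le_max_left _ _) hn) (KK_mono ℓ q (le_max_right _ _) hm)⟩
  | inv x _ hx =>
    obtain ⟨n, hn⟩ := hx
    exact ⟨n, inv_mem hn⟩
  | mul x y _ _ hx hy =>
    obtain ⟨n, hn⟩ := hx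
    obtain ⟨m, hm⟩ := hy
    exact ⟨max n m, mul_mem (KK_mono ℓ q (le_max_left _ _) hn) (KK_mono ℓ q (le_max_right _ _) hm)⟩

lemma ec_mem_EN {N : ℕ} {q : ℕ} [Fact q.Prime] (h : q ∣ N) (a : ZMod q) : ec q a ∈ EN N := by
  apply IntermediateField.subset_adjoin
  obtain ⟨m, rfl⟩ := h
  show ec q a ^ (q * m) = 1
  rw [pow_mul, ec_pow_q, one_pow]

lemma eta_mem_EN {N : ℕ} {q : ℕ} [Fact q.Prime] (h : q ∣ N) (ℓ : ℕ) (a : ZMod q) :
    eta ℓ q a ∈ EN N := sum_mem fun _ _ => ec_mem_EN h _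

lemma KK_le_EN (n : ℕ) : KK ℓ q n ≤ EN (cond q n) := by
  rw [KK, IntermediateField.adjoin_le_iff]
  rintro x ⟨j, hj, a, rfl⟩
  exact eta_mem_EN (dvd_cond q hj) _ _

lemma mem_KK_of_mem_EN (hinj : Function.Injective q) {n : ℕ} {α : Qb}
    (h1 : α ∈ KK ℓ q (n + 1)) (h2 : α ∈ EN (cond q n)) : α ∈ KK ℓ q n := by
  rw [← InfiniteGalois.fixedField_fixingSubgroup (KK ℓ q n), IntermediateField.mem_fixedField_iff]
  intro τ hτ
  rw [IntermediateField.mem_fixingSubgroup_iff] at hτ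
  obtain ⟨u, hu⟩ := exists_pow (q n) _ τ
  have hcop : (u : ZMod (q n)).val.Coprime (q n) := by
    have := ZMod.isUnit_iff_coprime (u : ZMod (q n)).val (q n)
    rw [ZMod.natCast_zmod_val] at this
    exact this.mp u.isUnit
  obtain ⟨σ, hσ1, hσ2⟩ := exists_aut_coprime (cond_pos q n) (hq n).out.pos
    (cond_coprime q hinj n) hcop
  have hσz : σ (zeta (q n)) = zeta (q n) ^ (u : ZMod (q n)).val :=
    hσ2 _ (zeta_prim _ (hq n).out.pos).pow_eq_one
  have h3 : (σ⁻¹ * τ) α = α := by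
    refine fix_adjoin (σ⁻¹ * τ) _ ?_ α h1
    rintro x ⟨j, hj, a, rfl⟩
    rw [AlgEquiv.mul_apply, AlgEquiv.aut_inv, AlgEquiv.symm_apply_eq]
    rcases Nat.lt_succ_iff_lt_or_eq.mp hj with hj' | rfl
    · rw [hσ1 _ (eta_mem_EN (dvd_cond q hj') _ _)]
      exact hτ _ (IntermediateField.subset_adjoin _ _ ⟨j, hj', a, rfl⟩)
    · rw [eta_aut _ _ _ _ _ τ hu, eta_aut _ _ _ _ _ σ hσz]
  rw [AlgEquiv.mul_apply, AlgEquiv.aut_inv, AlgEquiv.symm_apply_eq, hσ1 α h2] at h3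
  exact h3

lemma ht_conj' (E : IntermediateField ℚ Qb) (σ : Qb ≃ₐ[E] Qb) (α : Qb) : ht (σ α) = ht α :=
  ht_conj (σ.restrictScalars ℚ) α

/-- **the lower bound for the height of the elements of `KK (n + 1)` outside `KK n`** -/
theorem ht_ge (hinj : Function.Injective q) (hℓ : ∀ n, 0 < ℓ n) {n : ℕ} {α : Qb}
    (h1 : α ∈ KK ℓ q (n + 1)) (h2 : α ∉ KK ℓ q n) :
    (Real.log (q n) - ℓ n * Real.log 2) / (2 * ℓ n) ≤ ht α := by
  have h3 : α ∉ EN (cond q n) := fun h => h2 (mem_KK_of_mem_EN ℓ q hinj h1 h)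
  set E := EN (cond q n) with hE
  have hgal : IsGalois E Qb := inferInstance
  have h4 : ∃ σ : Qb ≃ₐ[E] Qb, σ α ≠ α := by
    by_contra hcon
    push Not at hcon
    have h5 := (InfiniteGalois.mem_range_algebraMap_iff_fixed (k := E) α).mpr hcon
    obtain ⟨y, hy⟩ := h5
    apply h3
    rw [← hy]
    exact y.2
  obtain ⟨σ, hσ⟩ := h4
  have hαM : α ∈ MM (ℓ n) (q n) E := by
    have h5 : KK ℓ q (n + 1) ≤ (MM (ℓ n) (q n) E).restrictScalars ℚ := by
      rw [KK, IntermediateField.adjoin_le_iff]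
      rintro x ⟨j, hj, a, rfl⟩
      rcases Nat.lt_succ_iff_lt_or_eq.mp hj with hj' | rfl
      · have h6 : eta (ℓ j) (q j) a ∈ E := eta_mem_EN (dvd_cond q hj') _ _
        have h7 := (MM (ℓ n) (q n) E).algebraMap_mem ⟨_, h6⟩
        exact h7
      · exact eta_mem_MM _ _ _ _
    exact h5 h1
  have hqN : ¬ q n ∣ cond q n := by
    intro hdvd
    have := (Nat.Prime.coprime_iff_not_dvd (hq n).out).mp (cond_coprime q hinj n).symm
    exact this hdvd
  refine ht_ge_of_ineq (q n) (hq n).out (ℓ n) (hℓ n) α (σ α) ?_ hσ ?_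
  · exact ht_conj' E σ α
  · intro V hV
    have h8 := inertia_ineq V E (hq n).out (zeta_prim (q n) (hq n).out.pos) hV
      (fun x hx hx0 => EN_zpow (cond_pos q n) (hq n).out hqN V hV x hx hx0)
      (MM (ℓ n) (q n) E) (MM_le (ℓ n) (q n) E) (ℓ n) (MM_finrank (ℓ n) (q n) E (hℓ n)) α hαM
      (σ : Qb →ₐ[E] Qb) (MM_stable (ℓ n) (q n) E _ α hαM)
    have hβ : (σ : Qb →ₐ[E] Qb) α = σ α := rfl
    rw [hβ] at h8
    exact h8

end tower

end Pool.Agent.Q281.USB
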