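import Mathlib
import Pool.Agent.Q281.USB.Per

set_option autoImplicit false

/-!
# The Frobenius element acts on the periods
-/

namespace Pool.Agent.Q281.USB

open Pool.Agent.H58P (Qb ht qb_isIntegral)

/-- the algebraic integers -/
noncomputable abbrev AA : Subalgebra ℤ Qb := integralClosure ℤ Qb

lemma ec_int (q : ℕ) [hq : Fact q.Prime] (a : ZMod q) : IsIntegral ℤ (ec q a) :=
  (prim_int (zeta_prim q hq.out.pos) hq.out.pos).pow _

lemma eta_int (ℓ q : ℕ) [hq : Fact q.Prime] (a : ZMod q) : IsIntegral ℤ (eta ℓ q a) :=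
  IsIntegral.sum _ fun _ _ => ec_int q _

theorem frob_contra {κ : Type} [Field κ] (p : ℕ) [hp : Fact p.Prime] [CharP κ p] (ψ : AA →+* κ)
    (ℓ q r : ℕ) [hq : Fact q.Prime] (hℓ : ℓ.Prime) (hr : 0 < r) (hrℓ : r < ℓ) (hpq : p ≠ q)
    (hpw : ∀ u : ZMod q, u ^ ℓ ≠ (p : ZMod q))
    (h : ∀ a : ZMod q, ψ ⟨eta ℓ q a, eta_int ℓ q a⟩ ^ p ^ r = ψ ⟨eta ℓ q a, eta_int ℓ q a⟩) :
    False := by
  classical
  -- the reduction of the root of unity
  set z₀ : AA := ⟨zeta q, prim_int (zeta_prim q hq.out.pos) hq.out.pos⟩ with hz₀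
  set z : κ := ψ z₀ with hz
  have hz₀q : z₀ ^ q = 1 := by
    apply Subtype.ext
    exact (zeta_prim q hq.out.pos).pow_eq_one
  have hzq : z ^ q = 1 := by rw [hz, ← map_pow, hz₀q, map_one]
  have hqκ : (q : κ) ≠ 0 := by
    intro h0
    have h1 := (CharP.cast_eq_zero_iff κ p q).mp h0
    exact hpq ((Nat.prime_dvd_prime_iff_eq hp.out hq.out).mp h1)
  have hz1 : z ≠ 1 := by
    intro h1
    have h2 : ∑ i ∈ Finset.range q, z₀ ^ i = 0 := by
      apply Subtype.ext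
      have := (zeta_prim q hq.out.pos).geom_sum_eq_zero hq.out.one_lt
      simpa using this
    have h3 := congrArg ψ h2
    rw [map_sum, map_zero] at h3
    simp only [map_pow, ← hz, h1, one_pow, Finset.sum_const, Finset.card_range, nsmul_eq_mul,
      mul_one] at h3
    exact hqκ h3
  have hprim : IsPrimitiveRoot z q := by
    have h1 := orderOf_eq_prime hzq hz1 (hp := hq)
    rw [← h1]
    exact IsPrimitiveRoot.orderOf z
  set χ : AddChar (ZMod q) κ := AddChar.zmodChar q ((IsPrimitiveRoot.iff_def z q).mp hprim).left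
    with hχ
  have hχprim : χ.IsPrimitive := AddChar.zmodChar_primitive_of_primitive_root q hprim
  have hψe : ∀ a : ZMod q, ψ ⟨ec q a, ec_int q a⟩ = χ a := by
    intro a
    rw [hχ, AddChar.zmodChar_apply, hz, ← map_pow]
    rfl
  have hψη : ∀ a : ZMod q, ψ ⟨eta ℓ q a, eta_int ℓ q a⟩ =
      ∑ s : pwr ℓ q, χ (a * ((s : (ZMod q)ˣ) : ZMod q)) := by
    intro a
    have h1 : (⟨eta ℓ q a, eta_int ℓ q a⟩ : AA) =
        ∑ s : pwr ℓ q, (⟨ec q (a * ((s : (ZMod q)ˣ) : ZMod q)), ec_int q _⟩ : AA) := by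
      apply Subtype.ext
      rw [AddSubmonoidClass.coe_finsetSum]
      rfl
    rw [h1, map_sum]
    exact Finset.sum_congr rfl fun s _ => hψe _
  set P : ZMod q := (p : ZMod q) ^ r with hP
  have hfrob : ∀ a : ZMod q, ∑ s : pwr ℓ q, χ (P * a * ((s : (ZMod q)ˣ) : ZMod q)) =
      ∑ s : pwr ℓ q, χ (a * ((s : (ZMod q)ˣ) : ZMod q)) := by
    intro a
    rw [← hψη a, ← h a, hψη a, sum_pow_char_pow]
    refine Finset.sum_congr rfl fun s _ => ?_
    rw [← AddChar.map_nsmul_eq_pow]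
    congr 1
    rw [hP, nsmul_eq_mul]
    push_cast
    ring
  -- the orthogonality relations
  have horth : ∀ c : ZMod q, ∑ a : ZMod q, χ (-a) * ∑ s : pwr ℓ q,
      χ (c * a * ((s : (ZMod q)ˣ) : ZMod q)) =
      ∑ s : pwr ℓ q, if c * ((s : (ZMod q)ˣ) : ZMod q) - 1 = 0 then (q : κ) else 0 := by
    intro c
    simp_rw [Finset.mul_sum]
    rw [Finset.sum_comm]
    refine Finset.sum_congr rfl fun s _ => ?_
    have h1 := AddChar.sum_mulShift (c * ((s : (ZMod q)ˣ) : ZMod q) - 1) hχprim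
    rw [ZMod.card] at h1
    have h2 : ∑ a : ZMod q, χ (-a) * χ (c * a * ((s : (ZMod q)ˣ) : ZMod q)) =
        ∑ a : ZMod q, χ (a * (c * ((s : (ZMod q)ˣ) : ZMod q) - 1)) := by
      refine Finset.sum_congr rfl fun a _ => ?_
      rw [← AddChar.map_add_eq_mul]
      congr 1
      ring
    rw [h2, h1]
    split_ifs <;> simp
  have h1 := horth 1
  have h2 := horth P
  have h3 : ∀ a : ZMod q, ∑ s : pwr ℓ q, χ (P * a * ((s : (ZMod q)ˣ) : ZMod q)) =
      ∑ s : pwr ℓ q, χ (1 * a * ((s : (ZMod q)ˣ) : ZMod q)) := by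
    intro a
    rw [hfrob a, one_mul]
  simp_rw [h3] at h2
  rw [h1] at h2
  have h4 : ∑ s : pwr ℓ q, (if 1 * ((s : (ZMod q)ˣ) : ZMod q) - 1 = 0 then (q : κ) else 0) = q := by
    rw [Finset.sum_eq_single (1 : pwr ℓ q)]
    · simp
    · intro s _ hs
      rw [if_neg]
      intro h5
      apply hs
      rw [one_mul, sub_eq_zero] at h5
      apply Subtype.ext
      apply Units.ext
      exact h5
    · intro h5
      exact absurd (Finset.mem_univ _) h5
  rw [h4] at h2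
  obtain ⟨s, -, hs⟩ : ∃ s ∈ (Finset.univ : Finset (pwr ℓ q)),
      (if P * ((s : (ZMod q)ˣ) : ZMod q) - 1 = 0 then (q : κ) else 0) ≠ 0 := by
    apply Finset.exists_ne_zero_of_sum_ne_zero
    rw [← h2]
    exact hqκ
  have hs1 : P * ((s : (ZMod q)ˣ) : ZMod q) - 1 = 0 := by
    by_contra hcon
    rw [if_neg hcon] at hs
    exact hs rfl
  -- `p` as a unit
  have hcop : p.Coprime q := (Nat.coprime_primes hp.out hq.out).mpr hpq
  set π : (ZMod q)ˣ := ZMod.unitOfCoprime p hcop with hπ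
  have hπr : π ^ r ∈ pwr ℓ q := by
    have h5 : π ^ r = ((s : (ZMod q)ˣ))⁻¹ := by
      apply eq_inv_of_mul_eq_one_left
      apply Units.ext
      rw [Units.val_mul, Units.val_pow_eq_pow_val, hπ, ZMod.coe_unitOfCoprime, Units.val_one]
      exact sub_eq_zero.mp hs1
    rw [h5]
    exact inv_mem s.2
  have hπℓ : π ^ ℓ ∈ pwr ℓ q := ⟨π, rfl⟩
  have hcop2 : Nat.Coprime r ℓ := by
    rw [Nat.coprime_comm]
    apply (Nat.Prime.coprime_iff_not_dvd hℓ).mpr
    intro hdvd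
    have := Nat.le_of_dvd hr hdvd
    omega
  have h6 : π ∈ pwr ℓ q := by
    have h7 : ((Int.gcd (r : ℤ) (ℓ : ℤ) : ℕ) : ℤ) = r * Int.gcdA r ℓ + ℓ * Int.gcdB r ℓ :=
      Int.gcd_eq_gcd_ab r ℓ
    rw [Int.gcd_natCast_natCast, hcop2.gcd_eq_one] at h7
    have h8 : π = (π ^ r) ^ (Int.gcdA r ℓ) * (π ^ ℓ) ^ (Int.gcdB r ℓ) := by
      rw [← zpow_natCast, ← zpow_natCast, ← zpow_mul, ← zpow_mul, ← zpow_add, ← h7]
      simp
    rw [h8]
    exact mul_mem (zpow_mem hπr _) (zpow_mem hπℓ _)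
  obtain ⟨u, hu⟩ := h6
  apply hpw (u : ZMod q)
  have h7 := congrArg (fun y : (ZMod q)ˣ => (y : ZMod q)) hu
  simp only [powMonoidHom_apply, Units.val_pow_eq_pow_val, hπ, ZMod.coe_unitOfCoprime] at h7
  exact h7

end Pool.Agent.Q281.USB
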