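import Mathlib
import Pool.Agent.Q281.USB.LocA
import Pool.Agent.Q281.USB.LocB
import Pool.Agent.W189.NF.Residue

set_option autoImplicit false

/-!
# The local degrees of the compositum are infinite
-/

namespace Pool.Agent.Q281.USB

open NumberField IsDedekindDomain IsLocalRing
open Pool.Agent.H58P (Qb ht qb_isIntegral)

instance finite_residue {K : Type} [Field K] [NumberField K] (v : HeightOneSpectrum (𝓞 K)) :
    Finite (ResidueField (v.adicCompletionIntegers K)) := by
  apply Nat.finite_of_card_ne_zero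
  have h1 : Nat.card (ResidueField (v.adicCompletionIntegers K)) = Ideal.absNorm v.asIdeal :=
    Pool.Agent.W189.NF.card_residue v
  rw [h1, Ne, Ideal.absNorm_eq_zero_iff]
  exact v.ne_bot

theorem not_finite (K : IntermediateField ℚ Qb) [NumberField K]
    (v : HeightOneSpectrum (𝓞 K)) (ι : Qb →ₐ[K] AlgebraicClosure (v.adicCompletion K))
    (S : Set Qb) (ℓ q p : ℕ → ℕ) [hq : ∀ n, Fact (q n).Prime] (hℓ : ∀ n, (ℓ n).Prime)
    (hS : ∀ n a, eta (ℓ n) (q n) a ∈ S)
    (hpq : ∀ n, p n ≠ q n)
    (hpw : ∀ n (u : ZMod (q n)), u ^ (ℓ n) ≠ (p n : ZMod (q n)))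
    (hp : ∀ π : ℕ, π.Prime → ∀ m : ℕ, ∃ n, p n = π ∧ m < ℓ n) :
    ¬ FiniteDimensional (v.adicCompletion K) (IntermediateField.adjoin (v.adicCompletion K)
      (ι '' S)) := by
  intro hfin
  have hcz : CharZero (v.adicCompletion K) :=
    charZero_of_injective_algebraMap (algebraMap K (v.adicCompletion K)).injective
  obtain ⟨κ, _, ρ, π, r, hπ, hr, hchar, hρ⟩ := residue_frob (O := v.adicCompletionIntegers K)
    (k := v.adicCompletion K) (Ω := AlgebraicClosure (v.adicCompletion K))
    (IntermediateField.adjoin (v.adicCompletion K) (ι '' S))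
  have : Fact π.Prime := ⟨hπ⟩
  obtain ⟨n, hn, hn2⟩ := hp π hπ r
  have hint : ∀ x : AA, IsIntegral (v.adicCompletionIntegers K) (ι (x : Qb)) := by
    intro x
    obtain ⟨P, hP, hPx⟩ := x.2
    refine ⟨P.map (Int.castRingHom _), hP.map _, ?_⟩
    rw [Polynomial.eval₂_map]
    have h1 : ((algebraMap (v.adicCompletionIntegers K)
        (AlgebraicClosure (v.adicCompletion K))).comp (Int.castRingHom _)) =
        ((ι : Qb →+* AlgebraicClosure (v.adicCompletion K)).comp (algebraMap ℤ Qb)) :=
      RingHom.ext_int _ _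
    have h2 : ι (x : Qb) = (ι : Qb →+* AlgebraicClosure (v.adicCompletion K)) (x : Qb) := rfl
    rw [h1, h2, ← Polynomial.hom_eval₂, hPx, map_zero]
  let g : AA →+* integralClosure (v.adicCompletionIntegers K)
      (AlgebraicClosure (v.adicCompletion K)) :=
    { toFun := fun x => ⟨ι (x : Qb), hint x⟩
      map_one' := by apply Subtype.ext; exact map_one ι
      map_mul' := fun x y => by apply Subtype.ext; exact map_mul ι _ _
      map_zero' := by apply Subtype.ext; exact map_zero ι
      map_add' := fun x y => by apply Subtype.ext; exact map_add ι _ _ }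
  refine frob_contra π (ρ.comp g) (ℓ n) (q n) r (hℓ n) hr hn2 (hn ▸ hpq n) (hn ▸ hpw n) ?_
  intro a
  apply hρ
  exact IntermediateField.subset_adjoin _ _ ⟨_, hS n a, rfl⟩

end Pool.Agent.Q281.USB
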