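import Mathlib
import Pool.Agent.Q281.USB.Per
import Pool.Agent.H58W.HtLimit
import Pool.Agent.H58W.HtNorth
import Pool.Agent.W70.LD.Mahler

set_option autoImplicit false

/-!
# The properties (N) and (USB)
-/

namespace Pool.Agent.Q281.USB

open NumberField IsDedekindDomain Module Polynomial
open Pool.Agent.Helper259.AbsHt
open Pool.Agent.H58P (Qb ht qb_isIntegral)
open Pool.Agent.H58W (hM lift hev iterate_lower height_lower absLogHeight_pair northcott)

open Filter Topology in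
/-- property (N) implies property (USB) -/
theorem usb_of_northcott (P Q : Qb[X]) (d : ℕ) (hd : max P.natDegree Q.natDegree = d)
    (hd2 : 2 ≤ d) (hco : IsCoprime P Q) (S : Set Qb)
    (hS : ∀ T : ℝ, {α : Qb | α ∈ S ∧ ht α ≤ T}.Finite) :
    {α : Qb | α ∈ S ∧ ∃ L : ℝ, Tendsto (fun n : ℕ =>
      hM (((lift P Q d)^[n] (α, 1)).1 / ((lift P Q d)^[n] (α, 1)).2) / (d : ℝ) ^ n)
      atTop (𝓝 L) ∧ L < 1}.Finite := by
  obtain ⟨C, hC⟩ := height_lower P Q d hd (by omega) hco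
  have hC' : ∀ x y : Qb, d * absLogHeight ![x, y] ≤ max C 0 +
      absLogHeight ![hev P d x y, hev Q d x y] := fun x y =>
    (hC x y).trans (by linarith [le_max_left C 0])
  refine (hS (max C 0 + 1)).subset ?_
  rintro α ⟨hα, L, hlim, hL⟩
  refine ⟨hα, ?_⟩
  have hd2' : (2 : ℝ) ≤ d := by exact_mod_cast hd2
  obtain ⟨n, hn1⟩ := (hlim.eventually_lt_const hL).exists
  set γ : Qb := ((lift P Q d)^[n] (α, 1)).1 / ((lift P Q d)^[n] (α, 1)).2 with hγ
  have hdn : (0 : ℝ) < (d : ℝ) ^ n := by positivity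
  rw [div_lt_one hdn] at hn1
  have h3 := iterate_lower P Q d (max C 0) hd2 (le_max_right _ _) hC' (α, 1) n
  rw [absLogHeight_pair ((lift P Q d)^[n] (α, 1)).1] at h3
  have h4 : ht γ ≤ hM γ := Pool.Agent.W70.LD.ht_le_hM γ
  have h5 : absLogHeight ![1, γ] = ht γ := rfl
  rw [← hγ, h5] at h3
  have h6 : (d : ℝ) ^ n * absLogHeight ![α, 1] ≤ (d : ℝ) ^ n * (max C 0 + 1) := by
    have h7 : max C 0 * ((d : ℝ) ^ n - 1) ≤ max C 0 * (d : ℝ) ^ n := by
      have := le_max_right C 0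
      nlinarith
    have h8 : (d : ℝ) ^ n * absLogHeight ![α, 1] ≤ max C 0 * ((d : ℝ) ^ n - 1) + ht γ := h3
    linarith
  have h7 := le_of_mul_le_mul_left h6 hdn
  have h8 : ht α = absLogHeight ![α, 1] := by
    have := absLogHeight_pair α 1
    rw [div_one] at this
    exact this.symm
  rw [h8]
  exact h7

/-- property (N) for the compositum -/
theorem northcott_FF (ℓ q : ℕ → ℕ) [hq : ∀ n, Fact (q n).Prime] (hinj : Function.Injective q)
    (hℓ : ∀ n, 0 < ℓ n)
    (hB : ∀ n : ℕ, (n : ℝ) ≤ (Real.log (q n) - ℓ n * Real.log 2) / (2 * ℓ n)) (T : ℝ) :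
    {α : Qb | α ∈ (FF ℓ q : Set Qb) ∧ ht α ≤ T}.Finite := by
  classical
  obtain ⟨m, hm⟩ := exists_nat_gt T
  have hnf := EN_nf (cond q m) (cond_pos q m)
  refine (northcott (finrank ℚ (EN (cond q m))) T).subset ?_
  rintro α ⟨hα, hT⟩
  have hmem : α ∈ KK ℓ q m := by
    by_contra hcon
    have hex : ∃ k, α ∈ KK ℓ q k := mem_FF ℓ q hα
    have h0 : α ∉ KK ℓ q 0 := fun h => hcon (KK_mono ℓ q (Nat.zero_le m) h)
    have hk := Nat.find_spec hex
    have hkm : m < Nat.find hex := by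
      by_contra h
      exact hcon (KK_mono ℓ q (not_lt.mp h) hk)
    obtain ⟨k, hk'⟩ : ∃ k, Nat.find hex = k + 1 := ⟨Nat.find hex - 1, by omega⟩
    rw [hk'] at hk hkm
    have h1 : α ∉ KK ℓ q k := Nat.find_min hex (by omega)
    have h2 := ht_ge ℓ q hinj hℓ hk h1
    have h3 := hB k
    have h4 : (m : ℝ) ≤ k := by exact_mod_cast Nat.lt_succ_iff.mp hkm
    have h5 : ht α ≤ T := hT
    linarith
  have hE : α ∈ EN (cond q m) := KK_le_EN ℓ q m hmem
  refine ⟨?_, hT⟩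
  have h2 : minpoly ℚ α = minpoly ℚ (⟨α, hE⟩ : EN (cond q m)) := by
    rw [← minpoly.algebraMap_eq (algebraMap (EN (cond q m)) Qb).injective]
    rfl
  rw [h2]
  exact minpoly.natDegree_le _

end Pool.Agent.Q281.USB
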