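import Mathlib
import Pool.Agent.W401.Cheb.Main

set_option autoImplicit false

/-!
# Primes `q` for which a given prime `p` is not an `ℓ`-th power
-/

namespace Pool.Agent.Q281.USB

open NumberField Module Polynomial
open Pool.Agent.W401.Cheb

lemma rat_not_pow {ℓ p : ℕ} (hℓ : ℓ.Prime) (hp : p.Prime) (b : ℚ) : b ^ ℓ ≠ (p : ℚ) := by
  intro h
  have : Fact p.Prime := ⟨hp⟩
  have h1 := congrArg (padicValRat p) h
  rw [padicValRat.pow, padicValRat.self hp.one_lt] at h1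
  have h2 : (ℓ : ℤ) ∣ 1 := ⟨_, h1.symm⟩
  have h3 := Int.eq_one_of_dvd_one (by positivity) h2
  have := hℓ.one_lt
  omega

lemma irr_poly {ℓ p : ℕ} (hℓ : ℓ.Prime) (hp : p.Prime) : Irreducible (X ^ ℓ - C (p : ℚ)) :=
  X_pow_sub_C_irreducible_of_prime hℓ (rat_not_pow hℓ hp)

lemma exists_gal' {L : Type} [Field L] [NumberField L] [IsGalois ℚ L] {ℓ p : ℕ} (hℓ : ℓ.Prime)
    (hp : p.Prime) (hsplit : ((X ^ ℓ - C (p : ℚ)).map (algebraMap ℚ L)).Splits) :
    ∃ (g : Gal(L/ℚ)) (β γ : L), β ^ ℓ = p ∧ γ ^ ℓ = 1 ∧ γ ≠ 1 ∧ g γ = γ ∧ g β = γ * β := by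
  have hirr := irr_poly hℓ hp
  have hsep : (X ^ ℓ - C (p : ℚ)).Separable := hirr.separable
  have hdeg : (X ^ ℓ - C (p : ℚ)).natDegree = ℓ := natDegree_X_pow_sub_C
  have hroots : Multiset.card ((X ^ ℓ - C (p : ℚ)).map (algebraMap ℚ L)).roots = ℓ := by
    have h1 := hsplit.natDegree_eq_card_roots
    rw [natDegree_map, hdeg] at h1
    exact h1.symm
  have hnodup : ((X ^ ℓ - C (p : ℚ)).map (algebraMap ℚ L)).roots.Nodup := nodup_roots hsep.map
  have hmem : ∀ z, z ∈ ((X ^ ℓ - C (p : ℚ)).map (algebraMap ℚ L)).roots → z ^ ℓ = (p : L) := by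
    intro z hz
    rw [mem_roots'] at hz
    have h1 := hz.2
    rw [IsRoot.def] at h1
    simp only [Polynomial.map_sub, Polynomial.map_pow, map_X, eval_sub, eval_pow, eval_X,
      map_natCast, Polynomial.map_natCast, eval_natCast] at h1
    exact sub_eq_zero.mp h1
  obtain ⟨β, β', hne, hβ, hβ'⟩ : ∃ β β' : L, β ≠ β' ∧ β ^ ℓ = p ∧ β' ^ ℓ = p := by
    have h2 : 1 < Multiset.card ((X ^ ℓ - C (p : ℚ)).map (algebraMap ℚ L)).roots := by
      rw [hroots]
      exact hℓ.one_lt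
    classical
    rw [← Multiset.toFinset_card_of_nodup hnodup, Finset.one_lt_card] at h2
    obtain ⟨a, ha, b, hb, hab⟩ := h2
    exact ⟨a, b, hab, hmem a (Multiset.mem_toFinset.mp ha), hmem b (Multiset.mem_toFinset.mp hb)⟩
  have hp0 : (p : L) ≠ 0 := by exact_mod_cast hp.ne_zero
  have hβ0 : β ≠ 0 := by
    rintro rfl
    rw [zero_pow hℓ.ne_zero] at hβ
    exact hp0 hβ.symm
  have hζ1 : (β' / β) ^ ℓ = 1 := by rw [div_pow, hβ, hβ', div_self hp0]
  have hζ2 : β' / β ≠ 1 := by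
    intro h
    rw [div_eq_one_iff_eq hβ0] at h
    exact hne h.symm
  set ζ := β' / β with hζ
  have hprim : IsPrimitiveRoot ζ ℓ := by
    have h1 := orderOf_eq_prime hζ1 hζ2 (hp := ⟨hℓ⟩)
    rw [← h1]
    exact IsPrimitiveRoot.orderOf ζ
  -- `β` is not in `ℚ(ζ)`
  have hβK : β ∉ IntermediateField.adjoin ℚ {ζ} := by
    intro hmemβ
    have hint : IsIntegral ℚ ζ := Algebra.IsIntegral.isIntegral ζ
    have hfin : FiniteDimensional ℚ (IntermediateField.adjoin ℚ {ζ}) :=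
      IntermediateField.adjoin.finiteDimensional hint
    have h1 : finrank ℚ (IntermediateField.adjoin ℚ {ζ}) = ℓ - 1 := by
      rw [IntermediateField.adjoin.finrank hint, ← cyclotomic_eq_minpoly_rat hprim hℓ.pos,
        natDegree_cyclotomic, Nat.totient_prime hℓ]
    have h2 : minpoly ℚ (⟨β, hmemβ⟩ : IntermediateField.adjoin ℚ {ζ}) = X ^ ℓ - C (p : ℚ) := by
      symm
      apply minpoly.eq_of_irreducible_of_monic hirr
      · simp only [map_sub, map_pow, aeval_X, aeval_C, map_natCast]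
        rw [sub_eq_zero]
        apply Subtype.ext
        simp [hβ]
      · exact monic_X_pow_sub_C _ hℓ.ne_zero
    have h4 := minpoly.degree_dvd (K := ℚ) (x := (⟨β, hmemβ⟩ : IntermediateField.adjoin ℚ {ζ}))
      (Algebra.IsIntegral.isIntegral _)
    rw [h1, h2, hdeg] at h4
    have h3 := Nat.le_of_dvd (by have := hℓ.one_lt; omega) h4
    have := hℓ.one_lt
    omega
  obtain ⟨g, hg1, hg2⟩ : ∃ g : Gal(L/ℚ), (∀ x ∈ IntermediateField.adjoin ℚ {ζ}, g x = x) ∧
      g β ≠ β := by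
    by_contra hcon
    push Not at hcon
    apply hβK
    rw [← IsGalois.fixedField_fixingSubgroup (IntermediateField.adjoin ℚ {ζ}),
      IntermediateField.mem_fixedField_iff]
    intro g hg
    rw [IntermediateField.mem_fixingSubgroup_iff] at hg
    exact hcon g hg
  refine ⟨g, β, g β / β, hβ, ?_, ?_, ?_, ?_⟩
  · rw [div_pow, ← map_pow, hβ, map_natCast, div_self hp0]
  · intro h
    rw [div_eq_one_iff_eq hβ0] at h
    exact hg2 h
  · have h1 : (g β / β) ^ ℓ = 1 := by rw [div_pow, ← map_pow, hβ, map_natCast, div_self hp0]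
    have : NeZero ℓ := ⟨hℓ.ne_zero⟩
    obtain ⟨i, -, hi⟩ := hprim.eq_pow_of_pow_eq_one h1
    apply hg1
    rw [← hi]
    exact pow_mem (IntermediateField.mem_adjoin_simple_self ℚ ζ) i
  · rw [div_mul_cancel₀ _ hβ0]

/-- an automorphism of the splitting field of `X ^ ℓ - p` moving a root by a root of unity -/
lemma exists_gal {ℓ p : ℕ} (hℓ : ℓ.Prime) (hp : p.Prime) :
    ∃ (L : Type) (_ : Field L) (_ : NumberField L) (_ : IsGalois ℚ L) (g : Gal(L/ℚ)) (β γ : L),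
      β ^ ℓ = p ∧ γ ^ ℓ = 1 ∧ γ ≠ 1 ∧ g γ = γ ∧ g β = γ * β := by
  set f : ℚ[X] := X ^ ℓ - C (p : ℚ) with hf
  have hirr : Irreducible f := irr_poly hℓ hp
  have hsp : (f.map (algebraMap ℚ (AlgebraicClosure ℚ))).Splits := IsAlgClosed.splits _
  have h0 := IntermediateField.adjoin_rootSet_isSplittingField hsp
  have h1 : IsSplittingField ℚ
      (IntermediateField.adjoin ℚ (f.rootSet (AlgebraicClosure ℚ))) f := h0
  have hfd : FiniteDimensional ℚ (IntermediateField.adjoin ℚ (f.rootSet (AlgebraicClosure ℚ))) :=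
    IsSplittingField.finiteDimensional _ f
  have hnf : NumberField (IntermediateField.adjoin ℚ (f.rootSet (AlgebraicClosure ℚ))) := ⟨⟩
  have hgal : IsGalois ℚ (IntermediateField.adjoin ℚ (f.rootSet (AlgebraicClosure ℚ))) :=
    IsGalois.of_separable_splitting_field hirr.separable
  obtain ⟨g, β, γ, h⟩ := exists_gal' (L := IntermediateField.adjoin ℚ
    (f.rootSet (AlgebraicClosure ℚ))) hℓ hp (IsSplittingField.splits _ f)
  exact ⟨_, _, hnf, hgal, g, β, γ, h⟩

/-- there are infinitely many primes `q` for which `p` is not an `ℓ`-th power -/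
theorem exists_prime {ℓ p : ℕ} (hℓ : ℓ.Prime) (hp : p.Prime) (B : ℕ) :
    ∃ q : ℕ, q.Prime ∧ B < q ∧ ∀ u : ZMod q, u ^ ℓ ≠ (p : ZMod q) := by
  obtain ⟨L, _, _, _, g, β, γ, hβ, hγ1, hγ2, hγ3, hgβ⟩ := exists_gal hℓ hp
  obtain ⟨q, ⟨hq, hx⟩, hqB⟩ := (infinite_frob L g).exists_gt (max B (max ℓ p))
  have hqB1 : B < q := (le_max_left _ _).trans_lt hqB
  have hqℓ : ℓ < q := ((le_max_left _ _).trans (le_max_right _ _)).trans_lt hqB
  have hqp : p < q := ((le_max_right _ _).trans (le_max_right _ _)).trans_lt hqB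
  refine ⟨q, hq, hqB1, ?_⟩
  have : Fact q.Prime := ⟨hq⟩
  rw [xp, dif_pos hq] at hx
  obtain ⟨⟨φ, hφ⟩⟩ : Nonempty {φ : 𝓞 L →+* AlgebraicClosure (ZMod q) // HasFrob q φ g} := by
    by_contra hcon
    rw [not_nonempty_iff] at hcon
    exact hx Nat.card_of_isEmpty
  -- the integral elements
  have hβi : IsIntegral ℤ β := by
    refine ⟨X ^ ℓ - C (p : ℤ), monic_X_pow_sub_C _ hℓ.ne_zero, ?_⟩
    simp [hβ]
  have hγi : IsIntegral ℤ γ := by
    refine ⟨X ^ ℓ - C (1 : ℤ), monic_X_pow_sub_C _ hℓ.ne_zero, ?_⟩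
    simp [hγ1]
  set b : 𝓞 L := ⟨β, hβi⟩ with hb
  set c : 𝓞 L := ⟨γ, hγi⟩ with hc
  have hbc : g • b = c * b := by
    apply RingOfIntegers.ext
    exact hgβ
  have hcc : g • c = c := by
    apply RingOfIntegers.ext
    exact hγ3
  have hb1 : b ^ ℓ = p := by
    apply RingOfIntegers.ext
    simp [hb, hβ]
  have hc1 : c ^ ℓ = 1 := by
    apply RingOfIntegers.ext
    simp [hc, hγ1]
  have hc2 : ∑ i ∈ Finset.range ℓ, c ^ i = 0 := by
    have h1 : (∑ i ∈ Finset.range ℓ, c ^ i) * (c - 1) = 0 := by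
      rw [geom_sum_mul, hc1, sub_self]
    rcases mul_eq_zero.mp h1 with h | h
    · exact h
    · exfalso
      rw [sub_eq_zero] at h
      apply hγ2
      have := congrArg (fun z : 𝓞 L => (z : L)) h
      simpa [hc] using this
  have hcast : ∀ m : ℕ, 0 < m → m < q → (m : AlgebraicClosure (ZMod q)) ≠ 0 := by
    intro m hm hmq h
    have h1 := (CharP.cast_eq_zero_iff (AlgebraicClosure (ZMod q)) q m).mp h
    have := Nat.le_of_dvd hm h1
    omega
  have hφc : φ c ≠ 1 := by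
    intro h
    have h1 := congrArg φ hc2
    rw [map_sum, map_zero] at h1
    simp only [map_pow, h, one_pow, Finset.sum_const, Finset.card_range, nsmul_eq_mul, mul_one] at h1
    exact hcast ℓ hℓ.pos hqℓ h1
  have hφb : φ b ^ ℓ = p := by
    rw [← map_pow, hb1, map_natCast]
  have hφb0 : φ b ≠ 0 := by
    intro h
    rw [h, zero_pow hℓ.ne_zero] at hφb
    exact hcast p hp.pos hqp hφb.symm
  have hφc1 : φ c ^ ℓ = 1 := by rw [← map_pow, hc1, map_one]
  have hφcq : φ c ^ q = φ c := by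
    rw [← hφ c, hcc]
  have hφbq : φ b ^ q = φ c * φ b := by
    rw [← hφ b, hbc, map_mul]
  intro u hu
  set w : AlgebraicClosure (ZMod q) := algebraMap (ZMod q) _ u with hw
  have hwℓ : w ^ ℓ = p := by
    rw [hw, ← map_pow, hu, map_natCast]
  have hwq : w ^ q = w := by
    rw [hw, ← map_pow, ZMod.pow_card]
  have hw0 : w ≠ 0 := by
    intro h
    rw [h, zero_pow hℓ.ne_zero] at hwℓ
    exact hcast p hp.pos hqp hwℓ.symm
  have hprim : IsPrimitiveRoot (φ c) ℓ := by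
    have h1 := orderOf_eq_prime hφc1 hφc (hp := ⟨hℓ⟩)
    rw [← h1]
    exact IsPrimitiveRoot.orderOf _
  have hr : (φ b / w) ^ ℓ = 1 := by
    rw [div_pow, hφb, hwℓ, div_self (hcast p hp.pos hqp)]
  have : NeZero ℓ := ⟨hℓ.ne_zero⟩
  obtain ⟨i, -, hi⟩ := hprim.eq_pow_of_pow_eq_one hr
  have h1 : φ b = φ c ^ i * w := by
    rw [hi, div_mul_cancel₀ _ hw0]
  have h2 : φ b ^ q = φ b := by
    rw [h1, mul_pow, hwq, ← pow_mul, mul_comm i q, pow_mul, hφcq]
  rw [h2] at hφbq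
  apply hφc
  have h3 : (φ c - 1) * φ b = 0 := by
    rw [sub_mul, ← hφbq, one_mul, sub_self]
  rcases mul_eq_zero.mp h3 with h | h
  · exact sub_eq_zero.mp h
  · exact absurd h hφb0

end Pool.Agent.Q281.USB
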