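import Mathlib
import Pool.Agent.Q281.USB.Nor
import Pool.Agent.Q281.USB.Prim
import Pool.Agent.Q281.USB.Loc

set_option autoImplicit false

/-!
# The choice of the primes
-/

namespace Pool.Agent.Q281.USB

open NumberField IsDedekindDomain
open Pool.Agent.H58P (Qb ht qb_isIntegral)

theorem exists_data : ∃ ℓ q p : ℕ → ℕ, (∀ n, (ℓ n).Prime) ∧ (∀ n, (q n).Prime) ∧
    Function.Injective q ∧ (∀ n, p n ≠ q n) ∧
    (∀ n (u : ZMod (q n)), u ^ (ℓ n) ≠ (p n : ZMod (q n))) ∧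
    (∀ n : ℕ, (n : ℝ) ≤ (Real.log (q n) - ℓ n * Real.log 2) / (2 * ℓ n)) ∧
    (∀ π : ℕ, π.Prime → ∀ m : ℕ, ∃ n, p n = π ∧ m < ℓ n) := by
  have h1 : ∀ n : ℕ, ∃ ℓ, n < ℓ ∧ ℓ.Prime := fun n => by
    obtain ⟨ℓ, h, h'⟩ := Nat.exists_infinite_primes (n + 1)
    exact ⟨ℓ, h, h'⟩
  choose ℓ hℓn hℓ using h1
  let p : ℕ → ℕ := fun n => if (Nat.unpair n).1.Prime then (Nat.unpair n).1 else 2
  have hp : ∀ n, (p n).Prime := by
    intro n
    simp only [p]
    split_ifs with h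
    · exact h
    · exact Nat.prime_two
  let B : ℕ → ℕ := fun n => max (p n) ⌈Real.exp (2 * ℓ n * n + ℓ n * Real.log 2)⌉₊
  have h2 : ∀ n b : ℕ, ∃ q : ℕ, q.Prime ∧ b < q ∧ ∀ u : ZMod q, u ^ (ℓ n) ≠ (p n : ZMod q) :=
    fun n b => exists_prime (hℓ n) (hp n) b
  choose f hf1 hf2 hf3 using h2
  let q : ℕ → ℕ := fun n => Nat.rec (f 0 (B 0)) (fun k x => f (k + 1) (max (B (k + 1)) x)) n
  have hq : ∀ n, ∃ b, B n ≤ b ∧ q n = f n b := by
    intro n
    cases n with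
    | zero => exact ⟨B 0, le_rfl, rfl⟩
    | succ k => exact ⟨max (B (k + 1)) (q k), le_max_left _ _, rfl⟩
  have hBq : ∀ n, B n < q n := by
    intro n
    obtain ⟨b, hb, h⟩ := hq n
    rw [h]
    exact hb.trans_lt (hf2 n b)
  have hmono : StrictMono q := by
    apply strictMono_nat_of_lt_succ
    intro n
    have h3 : q (n + 1) = f (n + 1) (max (B (n + 1)) (q n)) := rfl
    rw [h3]
    exact (le_max_right _ _).trans_lt (hf2 _ _)
  clear_value q
  refine ⟨ℓ, q, p, hℓ, ?_, hmono.injective, ?_, ?_, ?_, ?_⟩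
  · intro n
    obtain ⟨b, -, h⟩ := hq n
    rw [h]
    exact hf1 n b
  · intro n h
    have h3 := hBq n
    have h4 : p n ≤ B n := le_max_left _ _
    omega
  · intro n
    obtain ⟨b, -, h⟩ := hq n
    rw [h]
    exact hf3 n b
  · intro n
    have h3 := hBq n
    have h4 : ⌈Real.exp (2 * ℓ n * n + ℓ n * Real.log 2)⌉₊ ≤ B n := le_max_right _ _
    have h5 : Real.exp (2 * ℓ n * n + ℓ n * Real.log 2) ≤ ((q n : ℕ) : ℝ) := by
      refine (Nat.le_ceil _).trans ?_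
      exact_mod_cast (h4.trans_lt h3).le
    have hq0 : (0 : ℝ) < ((q n : ℕ) : ℝ) := (Real.exp_pos _).trans_le h5
    have h6 : 2 * ℓ n * n + ℓ n * Real.log 2 ≤ Real.log ((q n : ℕ) : ℝ) := by
      rw [Real.le_log_iff_exp_le hq0]
      exact h5
    have h7 : (0 : ℝ) < ℓ n := by exact_mod_cast (hℓ n).pos
    rw [le_div_iff₀ (by positivity)]
    linarith
  · intro π hπ m
    refine ⟨Nat.pair π m, ?_, ?_⟩
    · simp only [p, Nat.unpair_pair]
      rw [if_pos hπ]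
    · exact (Nat.right_le_pair π m).trans_lt (hℓn _)

lemma FF_stable (ℓ q : ℕ → ℕ) [hq : ∀ n, Fact (q n).Prime] (σ : Qb →+* Qb) (x : Qb)
    (hx : x ∈ FF ℓ q) : σ x ∈ FF ℓ q := by
  unfold FF at hx
  induction hx using IntermediateField.adjoin_induction with
  | mem x hx =>
    obtain ⟨j, a, rfl⟩ := hx
    obtain ⟨u, hu⟩ := exists_pow (q j) _ σ
    rw [eta_aut (ℓ j) (q j) a _ _ σ hu]
    exact IntermediateField.subset_adjoin _ _ ⟨j, _, rfl⟩
  | algebraMap x =>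
    have h1 : algebraMap ℚ Qb x = (x : Qb) := by simp
    rw [h1, map_ratCast, ← h1]
    exact (FF ℓ q).algebraMap_mem x
  | add x y _ _ hx hy => rw [map_add]; exact add_mem hx hy
  | inv x _ hx => rw [map_inv₀]; exact inv_mem hx
  | mul x y _ _ hx hy => rw [map_mul]; exact mul_mem hx hy

end Pool.Agent.Q281.USB
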